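import Pool.Agent.Helper83.RS.Cat

/-!
# RS: a surface contained in a catenoid is the whole part of the catenoid in the ball (leaf END-6)
-/

set_option autoImplicit false

open scoped ContDiff Topology

namespace Pool.Agent.Helper99.RS

open Pool.Agent.Helper78.FB

variable {F : E → ℝ}

/-- The statement of leaf END-3. -/
def OpenIn (F : E → ℝ) : Prop :=
  ∀ G : E → ℝ, ContDiff ℝ ∞ G → (∀ y ∈ surf F, G y = 0) → ∀ z ∈ inn F, (∃ k, pd k G z ≠ 0) →
    ∃ e : ℝ, 0 < e ∧ ∀ x ∈ Metric.ball z e, G x = 0 → F x = 0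

/-- The equation of the catenoid. -/
noncomputable def GG (c z : ℝ) (y : E) : ℝ := y 0 ^ 2 + y 1 ^ 2 - c ^ 2 * Real.cosh ((y 2 - z) / c) ^ 2

theorem GG_zero {c z : ℝ} {y : E} : GG c z y = 0 ↔ y ∈ cat c z := by
  rw [GG, sub_eq_zero]
  rfl

theorem contDiff_coord (i : Fin 3) : ContDiff ℝ ∞ fun y : E => y i :=
  (EuclideanSpace.proj i : E →L[ℝ] ℝ).contDiff

theorem contDiff_GG (c z : ℝ) : ContDiff ℝ ∞ (GG c z) := by
  have h0 := contDiff_coord 0
  have h1 := contDiff_coord 1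
  have h2 := contDiff_coord 2
  have h3 : ContDiff ℝ ∞ fun y : E => Real.cosh ((y 2 - z) / c) :=
    Real.contDiff_cosh.comp ((h2.sub contDiff_const).div_const c)
  exact ((h0.pow 2).add (h1.pow 2)).sub (contDiff_const.mul (h3.pow 2))

private theorem pd_GG_aux {c z : ℝ} (i : Fin 3) (hi : i ≠ 2) (y : E)
    (h : ∀ s : ℝ, GG c z (y + s • EuclideanSpace.single i (1 : ℝ)) = GG c z y + 2 * s * y i + s ^ 2) :
    pd i (GG c z) y = 2 * y i := by
  have h1 : HasFDerivAt (GG c z) (fderiv ℝ (GG c z) y) y :=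
    ((contDiff_GG c z).differentiable (by simp) y).hasFDerivAt
  have h2 : HasLineDerivAt ℝ (GG c z) (fderiv ℝ (GG c z) y (EuclideanSpace.single i (1 : ℝ))) y
      (EuclideanSpace.single i (1 : ℝ)) := h1.hasLineDerivAt _
  have h3 : HasDerivAt (fun s : ℝ => GG c z y + 2 * s * y i + s ^ 2) (2 * y i) 0 := by
    have h4 : HasDerivAt (fun s : ℝ => GG c z y + 2 * s * y i + s ^ 2)
        (0 + 2 * 1 * y i + ((2 : ℕ) : ℝ) * (0 : ℝ) ^ (2 - 1) * 1) 0 := by
      refine HasDerivAt.add (HasDerivAt.add (hasDerivAt_const _ _) ?_) ((hasDerivAt_id' (0 : ℝ)).pow 2)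
      exact ((hasDerivAt_id' (0 : ℝ)).const_mul 2).mul_const (y i)
    convert h4 using 1
    ring
  have h5 : (fun s : ℝ => GG c z (y + s • EuclideanSpace.single i (1 : ℝ))) =
      fun s : ℝ => GG c z y + 2 * s * y i + s ^ 2 := funext h
  have h6 : HasDerivAt (fun s : ℝ => GG c z (y + s • EuclideanSpace.single i (1 : ℝ)))
    (fderiv ℝ (GG c z) y (EuclideanSpace.single i (1 : ℝ))) 0 := h2
  rw [h5] at h6
  exact h6.unique h3

theorem pd_GG_zero (c z : ℝ) (y : E) : pd 0 (GG c z) y = 2 * y 0 := by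
  refine pd_GG_aux 0 (by decide) y fun s => ?_
  have e0 : (y + s • EuclideanSpace.single (0 : Fin 3) (1 : ℝ) : E) 0 = y 0 + s := by simp
  have e1 : (y + s • EuclideanSpace.single (0 : Fin 3) (1 : ℝ) : E) 1 = y 1 := by simp
  have e2 : (y + s • EuclideanSpace.single (0 : Fin 3) (1 : ℝ) : E) 2 = y 2 := by simp
  rw [GG, GG, e0, e1, e2]
  ring

theorem pd_GG_one (c z : ℝ) (y : E) : pd 1 (GG c z) y = 2 * y 1 := by
  refine pd_GG_aux 1 (by decide) y fun s => ?_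
  have e0 : (y + s • EuclideanSpace.single (1 : Fin 3) (1 : ℝ) : E) 0 = y 0 := by simp
  have e1 : (y + s • EuclideanSpace.single (1 : Fin 3) (1 : ℝ) : E) 1 = y 1 + s := by simp
  have e2 : (y + s • EuclideanSpace.single (1 : Fin 3) (1 : ℝ) : E) 2 = y 2 := by simp
  rw [GG, GG, e0, e1, e2]
  ring

theorem pd_GG_ne {c z : ℝ} (hc : c ≠ 0) {y : E} (hy : y ∈ cat c z) : ∃ k, pd k (GG c z) y ≠ 0 := by
  by_contra hcon
  push Not at hcon
  have h0 := hcon 0
  have h1 := hcon 1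
  rw [pd_GG_zero] at h0
  rw [pd_GG_one] at h1
  have h2 : y 0 ^ 2 + y 1 ^ 2 = c ^ 2 * Real.cosh ((y 2 - z) / c) ^ 2 := hy
  have h3 : 0 < c ^ 2 * Real.cosh ((y 2 - z) / c) ^ 2 := by
    have := Real.cosh_pos ((y 2 - z) / c)
    positivity
  have h4 : y 0 = 0 := by linarith
  have h5 : y 1 = 0 := by linarith
  rw [h4, h5] at h2
  linarith

theorem glue (h : FBMS F) (hne : (inn F).Nonempty) {c z : ℝ} (hc : c ≠ 0) (hS : surf F ⊆ cat c z)
    (ho : OpenIn F) : surf F = {y | y ∈ cat c z ∧ ‖y‖ ≤ 1} := by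
  have hin : ∀ y ∈ inn F, y ∈ surf F := fun y hy => ⟨hy.1.le, hy.2⟩
  have hT : {y : E | y ∈ cat c z ∧ ‖y‖ < 1} ⊆ inn F := by
    have h1 : ∀ p ∈ inn F, ∃ e : ℝ, 0 < e ∧ ∀ x ∈ Metric.ball p e, GG c z x = 0 → F x = 0 := fun p hp =>
      ho (GG c z) (contDiff_GG c z) (fun y hy => GG_zero.2 (hS hy)) p hp (pd_GG_ne hc (hS (hin p hp)))
    choose! e he he' using h1
    have hU : IsOpen (⋃ p ∈ inn F, Metric.ball p (e p)) :=
      isOpen_biUnion fun p _ => Metric.isOpen_ball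
    have hV : IsOpen {y : E | F y ≠ 0} := isOpen_ne_fun h.smooth.continuous continuous_const
    intro y hy
    by_contra hcon
    have hFy : F y ≠ 0 := fun h0 => hcon ⟨hy.2, h0⟩
    obtain ⟨q, hq⟩ := hne
    obtain ⟨x, hx, hxU, hxV⟩ := cat_conn (z := z) hc _ _ hU hV (by
      intro x hx
      by_cases h0 : F x = 0
      · left
        exact Set.mem_biUnion (⟨hx.2, h0⟩ : x ∈ inn F) (Metric.mem_ball_self (he x ⟨hx.2, h0⟩))
      · exact Or.inr h0) ⟨q, ⟨hS (hin q hq), hq.1⟩, Set.mem_biUnion hq (Metric.mem_ball_self (he q hq))⟩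
      ⟨y, hy, hFy⟩
    simp only [Set.mem_iUnion] at hxU
    obtain ⟨p, hp, hxp⟩ := hxU
    exact hxV (he' p hp x hxp (GG_zero.2 hx.1))
  apply Set.Subset.antisymm
  · exact fun y hy => ⟨hS hy, hy.1⟩
  · refine (cat_closure hc ?_).trans ?_
    · obtain ⟨q, hq⟩ := hne
      exact ⟨q, hS (hin q hq), hq.1⟩
    · exact closure_minimal (fun y hy => hin y (hT hy)) (isCompact_surf h).isClosed

/-- The whole end: the surface is the critical catenoid. -/
theorem end_of_cat (h : FBMS F) (hne : (inn F).Nonempty) {c z : ℝ} (hc : c ≠ 0) (hS : surf F ⊆ cat c z)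
    (ho : OpenIn F) (hN : ∀ y ∈ bdry F, y 2 * Real.tanh ((y 2 - z) / c) = c) :
    ∃ s : ℝ, 0 < s ∧ s * Real.tanh s = 1 ∧ surf F =
      {y : E | ∃ σ θ : ℝ, |σ| ≤ s ∧ y = !₂[1 / (s * Real.cosh s) * (Real.cosh σ * Real.cos θ),
        1 / (s * Real.cosh s) * (Real.cosh σ * Real.sin θ), 1 / (s * Real.cosh s) * σ]} := by
  have h1 := glue h hne hc hS ho
  obtain ⟨q, hq⟩ := hne
  obtain ⟨s, hs, hs1, hs2⟩ := cat_end hc ⟨q, hS ⟨hq.1.le, hq.2⟩, hq.1⟩ fun y hy hy1 => by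
    have h2 : y ∈ surf F := by
      rw [h1]
      exact ⟨hy, hy1.le⟩
    exact hN y ⟨hy1, h2.2⟩
  exact ⟨s, hs, hs1, h1.trans hs2⟩

end Pool.Agent.Helper99.RS
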