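import Pool.Agent.Helper83.RS.Stereo

/-!
# RS: catenoids in the unit ball (leaves END-4, END-5)
-/

set_option autoImplicit false

open scoped ContDiff Topology

namespace Pool.Agent.Helper99.RS

open Pool.Agent.Helper78.FB

/-- A catenoid with vertical axis. -/
def cat (c z : ℝ) : Set E := {y : E | y 0 ^ 2 + y 1 ^ 2 = c ^ 2 * Real.cosh ((y 2 - z) / c) ^ 2}

/-- The square of the norm on the catenoid, as a function of the height. -/
noncomputable def ff (c z t : ℝ) : ℝ := c ^ 2 * Real.cosh ((t - z) / c) ^ 2 + t ^ 2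

theorem norm_sq_cat {c z : ℝ} {y : E} (hy : y ∈ cat c z) : ‖y‖ ^ 2 = ff c z (y 2) := by
  rw [norm_sq_eq, ff, ← hy]

theorem cosh_sq_exp (x : ℝ) : Real.cosh x ^ 2 = (Real.exp (2 * x) + Real.exp (-(2 * x)) + 2) / 4 := by
  have h1 : Real.exp (2 * x) = Real.exp x * Real.exp x := by rw [← Real.exp_add]; congr 1; ring
  have h2 : Real.exp (-(2 * x)) = Real.exp (-x) * Real.exp (-x) := by rw [← Real.exp_add]; congr 1; ring
  have h3 : Real.exp x * Real.exp (-x) = 1 := by rw [← Real.exp_add, add_neg_cancel, Real.exp_zero]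
  rw [Real.cosh_eq, h1, h2]
  linear_combination (1 / 2 : ℝ) * h3

theorem cosh_sq_conv {a b : ℝ} (ha : 0 ≤ a) (hb : 0 ≤ b) (hab : a + b = 1) (x y : ℝ) :
    Real.cosh (a * x + b * y) ^ 2 ≤ a * Real.cosh x ^ 2 + b * Real.cosh y ^ 2 := by
  rw [cosh_sq_exp, cosh_sq_exp, cosh_sq_exp]
  have h1 := convexOn_exp.2 (Set.mem_univ (2 * x)) (Set.mem_univ (2 * y)) ha hb hab
  have h2 := convexOn_exp.2 (Set.mem_univ (-(2 * x))) (Set.mem_univ (-(2 * y))) ha hb hab
  simp only [smul_eq_mul] at h1 h2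
  have e1 : 2 * (a * x + b * y) = a * (2 * x) + b * (2 * y) := by ring
  have e2 : -(2 * (a * x + b * y)) = a * (-(2 * x)) + b * (-(2 * y)) := by ring
  rw [e2, e1]
  linarith

theorem ff_conv {c z : ℝ} {a b : ℝ} (ha : 0 ≤ a) (hb : 0 ≤ b) (hab : a + b = 1) (x y : ℝ) :
    ff c z (a * x + b * y) ≤ a * ff c z x + b * ff c z y := by
  have h1 := cosh_sq_conv ha hb hab ((x - z) / c) ((y - z) / c)
  have e : (a * x + b * y - z) / c = a * ((x - z) / c) + b * ((y - z) / c) := by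
    have : z = (a + b) * z := by rw [hab, one_mul]
    rw [← mul_div_assoc, ← mul_div_assoc, ← add_div]
    congr 1
    linear_combination -this
  have h2 : (a * x + b * y) ^ 2 ≤ a * x ^ 2 + b * y ^ 2 := by
    have hb' : b = 1 - a := by linarith
    have : 0 ≤ a * b * (x - y) ^ 2 := by positivity
    subst hb'
    nlinarith
  rw [ff, ff, ff, e]
  have h3 := mul_le_mul_of_nonneg_left h1 (sq_nonneg c)
  linarith

theorem continuous_ff (c z : ℝ) : Continuous (ff c z) := by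
  unfold ff
  fun_prop

theorem one_lt_ff {c z t : ℝ} (hc : c ≠ 0) (ht : 1 ≤ |t|) : 1 < ff c z t := by
  have h1 : 0 < c ^ 2 * Real.cosh ((t - z) / c) ^ 2 := by
    have := Real.cosh_pos ((t - z) / c)
    positivity
  have h2 : 1 ≤ t ^ 2 := by
    rw [← sq_abs]
    nlinarith
  rw [ff]
  linarith

theorem exists_polar {R a b : ℝ} (hR : R ≠ 0) (h : a ^ 2 + b ^ 2 = R ^ 2) :
    ∃ θ : ℝ, a = R * Real.cos θ ∧ b = R * Real.sin θ := by
  let w : ℂ := ⟨a / R, b / R⟩
  have hw : ‖w‖ = 1 := by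
    have h1 : ‖w‖ ^ 2 = 1 := by
      rw [Complex.sq_norm, Complex.normSq_apply]
      show a / R * (a / R) + b / R * (b / R) = 1
      field_simp
      linarith
    exact (pow_eq_one_iff_of_nonneg (norm_nonneg _) two_ne_zero).1 h1
  have hw0 : w ≠ 0 := by
    rintro h0
    rw [h0, norm_zero] at hw
    exact zero_ne_one hw
  refine ⟨w.arg, ?_, ?_⟩
  · rw [Complex.cos_arg hw0, hw, div_one]
    show a = R * (a / R)
    field_simp
  · rw [Complex.sin_arg, hw, div_one]
    show b = R * (b / R)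
    field_simp

/-- The parametrisation of the catenoid. -/
noncomputable def pc (c z : ℝ) (p : ℝ × ℝ) : E :=
  !₂[c * Real.cosh ((p.1 - z) / c) * Real.cos p.2, c * Real.cosh ((p.1 - z) / c) * Real.sin p.2, p.1]

theorem pc_mem (c z : ℝ) (p : ℝ × ℝ) : pc c z p ∈ cat c z := by
  show (c * Real.cosh ((p.1 - z) / c) * Real.cos p.2) ^ 2 + (c * Real.cosh ((p.1 - z) / c) * Real.sin p.2) ^ 2 =
    c ^ 2 * Real.cosh ((p.1 - z) / c) ^ 2
  have := Real.sin_sq_add_cos_sq p.2
  linear_combination (c * Real.cosh ((p.1 - z) / c)) ^ 2 * this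

theorem exists_pc {c z : ℝ} (hc : c ≠ 0) {y : E} (hy : y ∈ cat c z) : ∃ θ : ℝ, y = pc c z (y 2, θ) := by
  have hR : c * Real.cosh ((y 2 - z) / c) ≠ 0 := mul_ne_zero hc (Real.cosh_pos _).ne'
  obtain ⟨θ, h0, h1⟩ := exists_polar hR (show y 0 ^ 2 + y 1 ^ 2 = (c * Real.cosh ((y 2 - z) / c)) ^ 2 by
    rw [mul_pow]; exact hy)
  refine ⟨θ, ?_⟩
  ext i
  fin_cases i
  · exact h0
  · exact h1
  · rfl

theorem continuous_pc (c z : ℝ) : Continuous (pc c z) := by
  unfold pc
  refine (PiLp.continuous_toLp 2 _).comp (continuous_pi fun i => ?_)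
  fin_cases i
  · show Continuous fun p : ℝ × ℝ => c * Real.cosh ((p.1 - z) / c) * Real.cos p.2
    fun_prop
  · show Continuous fun p : ℝ × ℝ => c * Real.cosh ((p.1 - z) / c) * Real.sin p.2
    fun_prop
  · exact continuous_fst

theorem norm_pc_lt {c z : ℝ} {p : ℝ × ℝ} : ‖pc c z p‖ < 1 ↔ ff c z p.1 < 1 := by
  have h1 := norm_sq_cat (pc_mem c z p)
  have h2 : pc c z p 2 = p.1 := rfl
  rw [h2] at h1
  rw [← h1, sq_lt_one_iff₀ (norm_nonneg _)]

theorem norm_pc_le {c z : ℝ} {p : ℝ × ℝ} : ‖pc c z p‖ ≤ 1 ↔ ff c z p.1 ≤ 1 := by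
  have h1 := norm_sq_cat (pc_mem c z p)
  have h2 : pc c z p 2 = p.1 := rfl
  rw [h2] at h1
  rw [← h1, sq_le_one_iff₀ (norm_nonneg _)]

theorem norm_pc_eq {c z : ℝ} {p : ℝ × ℝ} (h : ff c z p.1 = 1) : ‖pc c z p‖ = 1 := by
  have h1 := norm_sq_cat (pc_mem c z p)
  have h2 : pc c z p 2 = p.1 := rfl
  rw [h2, h] at h1
  exact (pow_eq_one_iff_of_nonneg (norm_nonneg _) two_ne_zero).1 h1

theorem cat_conn {c z : ℝ} (hc : c ≠ 0) : IsPreconnected {y : E | y ∈ cat c z ∧ ‖y‖ < 1} := by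
  have h1 : Convex ℝ {t : ℝ | ff c z t < 1} := by
    intro x hx y hy a b ha hb hab
    have h2 := ff_conv (c := c) (z := z) ha hb hab x y
    rw [Set.mem_ofPred_eq] at hx hy ⊢
    simp only [smul_eq_mul]
    refine h2.trans_lt ?_
    rcases ha.eq_or_lt with ha' | ha'
    · subst ha'
      rw [zero_add] at hab
      subst hab
      linarith
    · nlinarith
  have h3 : {y : E | y ∈ cat c z ∧ ‖y‖ < 1} = pc c z '' ({t : ℝ | ff c z t < 1} ×ˢ Set.univ) := by
    ext y
    constructor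
    · rintro ⟨hy, hy1⟩
      obtain ⟨θ, hθ⟩ := exists_pc hc hy
      refine ⟨(y 2, θ), ⟨?_, trivial⟩, hθ.symm⟩
      rw [hθ, norm_pc_lt] at hy1
      exact hy1
    · rintro ⟨p, ⟨hp, -⟩, rfl⟩
      exact ⟨pc_mem c z p, norm_pc_lt.2 hp⟩
  rw [h3]
  exact (h1.isPreconnected.prod isPreconnected_univ).image _ (continuous_pc c z).continuousOn

theorem cat_closure {c z : ℝ} (hc : c ≠ 0) (hne : ∃ y ∈ cat c z, ‖y‖ < 1) :
    {y | y ∈ cat c z ∧ ‖y‖ ≤ 1} ⊆ closure {y | y ∈ cat c z ∧ ‖y‖ < 1} := by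
  obtain ⟨q, hq, hq1⟩ := hne
  rintro y ⟨hy, hy1⟩
  obtain ⟨θ, hθ⟩ := exists_pc hc hy
  have hq2 : ff c z (q 2) < 1 := by
    rw [← norm_sq_cat hq]
    exact (sq_lt_one_iff₀ (norm_nonneg _)).2 hq1
  have hy2 : ff c z (y 2) ≤ 1 := by
    rw [← norm_sq_cat hy]
    exact (sq_le_one_iff₀ (norm_nonneg _)).2 hy1
  -- the points with height `(1 - s) y_2 + s q_2`
  let g : ℝ → E := fun s => pc c z ((1 - s) * y 2 + s * q 2, θ)
  have hg : Continuous g := (continuous_pc c z).comp (by fun_prop)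
  have hg0 : g 0 = y := by
    show pc c z ((1 - 0) * y 2 + 0 * q 2, θ) = y
    rw [sub_zero, one_mul, zero_mul, add_zero]
    exact hθ.symm
  have h1 : Set.MapsTo g (Set.Ioo 0 1) {y | y ∈ cat c z ∧ ‖y‖ < 1} := by
    rintro s ⟨hs0, hs1⟩
    refine ⟨pc_mem c z _, norm_pc_lt.2 ?_⟩
    show ff c z ((1 - s) * y 2 + s * q 2) < 1
    have h2 := ff_conv (c := c) (z := z) (a := 1 - s) (b := s) (by linarith) hs0.le (by ring) (y 2) (q 2)
    nlinarith
  have h2 : (0 : ℝ) ∈ closure (Set.Ioo (0 : ℝ) 1) := by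
    rw [closure_Ioo zero_ne_one]
    exact ⟨le_rfl, zero_le_one⟩
  rw [← hg0]
  exact map_mem_closure hg h2 h1

/-! ### The two ends -/

theorem cat_neg (c z : ℝ) : cat (-c) z = cat c z := by
  ext y
  show y 0 ^ 2 + y 1 ^ 2 = (-c) ^ 2 * Real.cosh ((y 2 - z) / -c) ^ 2 ↔
    y 0 ^ 2 + y 1 ^ 2 = c ^ 2 * Real.cosh ((y 2 - z) / c) ^ 2
  rw [div_neg, Real.cosh_neg, neg_sq]

/-- The numerical part: two different orthogonal ends of a catenoid. -/
theorem two_ends {c ζ u v : ℝ} (hc : 0 < c) (huv : u < v) (h1 : (ζ + u) * Real.sinh u = Real.cosh u)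
    (h2 : (ζ + v) * Real.sinh v = Real.cosh v) (h3 : c ^ 2 * (Real.cosh u ^ 2 + (ζ + u) ^ 2) = 1)
    (h4 : c ^ 2 * (Real.cosh v ^ 2 + (ζ + v) ^ 2) = 1) :
    ζ = 0 ∧ 0 < v ∧ u = -v ∧ v * Real.sinh v = Real.cosh v ∧ c = 1 / (v * Real.cosh v) := by
  have cu := Real.cosh_pos u
  have cv := Real.cosh_pos v
  have su := Real.cosh_sq u
  have sv := Real.cosh_sq v
  -- the signs
  have h5 : (v - u) * (Real.sinh u * Real.sinh v) = -Real.sinh (v - u) := by
    rw [Real.sinh_sub]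
    linear_combination (Real.sinh u) * h2 - (Real.sinh v) * h1
  have h6 : 0 < Real.sinh (v - u) := Real.sinh_pos_iff.2 (by linarith)
  have h7 : Real.sinh u * Real.sinh v < 0 := by
    by_contra hcon
    rw [not_lt] at hcon
    have := mul_nonneg (sub_nonneg.2 huv.le) hcon
    linarith
  have huv' : Real.sinh u < Real.sinh v := Real.sinh_lt_sinh.2 huv
  have hu : Real.sinh u < 0 := by
    by_contra hcon
    rw [not_lt] at hcon
    have := mul_nonneg hcon (hcon.trans huv'.le)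
    linarith
  have hv : 0 < Real.sinh v := by
    by_contra hcon
    rw [not_lt] at hcon
    have := mul_nonneg_of_nonpos_of_nonpos (huv'.le.trans hcon) hcon
    linarith
  have hu0 : u < 0 := Real.sinh_neg_iff.1 hu
  have hv0 : 0 < v := Real.sinh_pos_iff.1 hv
  -- energies: `c ^ 2 * cosh ^ 4 = sinh ^ 2`
  have e1 : c ^ 2 * (Real.cosh u ^ 2 * Real.cosh u ^ 2) = Real.sinh u ^ 2 := by
    have : Real.cosh u ^ 2 = (ζ + u) ^ 2 * Real.sinh u ^ 2 := by rw [← h1]; ring
    have h8 : c ^ 2 * (Real.cosh u ^ 2 * Real.sinh u ^ 2 + (ζ + u) ^ 2 * Real.sinh u ^ 2) = Real.sinh u ^ 2 := by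
      linear_combination (Real.sinh u ^ 2) * h3
    rw [← this] at h8
    rw [← h8, su]
    ring
  have e2 : c ^ 2 * (Real.cosh v ^ 2 * Real.cosh v ^ 2) = Real.sinh v ^ 2 := by
    have : Real.cosh v ^ 2 = (ζ + v) ^ 2 * Real.sinh v ^ 2 := by rw [← h2]; ring
    have h8 : c ^ 2 * (Real.cosh v ^ 2 * Real.sinh v ^ 2 + (ζ + v) ^ 2 * Real.sinh v ^ 2) = Real.sinh v ^ 2 := by
      linear_combination (Real.sinh v ^ 2) * h4
    rw [← this] at h8
    rw [← h8, sv]
    ring
  have e1' : c * Real.cosh u ^ 2 = -Real.sinh u := by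
    have h8 : (c * Real.cosh u ^ 2) ^ 2 = (-Real.sinh u) ^ 2 := by
      rw [neg_sq, ← e1]
      ring
    exact (sq_eq_sq₀ (by positivity) (by linarith)).1 h8
  have e2' : c * Real.cosh v ^ 2 = Real.sinh v := by
    have h8 : (c * Real.cosh v ^ 2) ^ 2 = Real.sinh v ^ 2 := by
      rw [← e2]
      ring
    exact (sq_eq_sq₀ (by positivity) hv.le).1 h8
  have h9 : (Real.sinh v + Real.sinh u) * (1 + Real.sinh u * Real.sinh v) = 0 := by
    have h10 : c * (Real.cosh u ^ 2 * Real.sinh v + Real.cosh v ^ 2 * Real.sinh u) = 0 := by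
      linear_combination (Real.sinh v) * e1' + (Real.sinh u) * e2'
    have h11 := (mul_eq_zero.1 h10).resolve_left hc.ne'
    rw [su, sv] at h11
    linear_combination h11
  have h12 : Real.sinh v + Real.sinh u = 0 := by
    rcases mul_eq_zero.1 h9 with h | h
    · exact h
    · exfalso
      have h13 : Real.sinh u * Real.sinh v = -1 := by linarith
      rw [h13] at h5
      have h14 : v - u < Real.sinh (v - u) := Real.self_lt_sinh_iff.2 (by linarith)
      linarith
  have hu' : u = -v := by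
    apply Real.sinh_injective
    rw [Real.sinh_neg]
    linarith
  subst hu'
  rw [Real.sinh_neg, Real.cosh_neg] at h1
  have hζ : ζ = 0 := by
    have h15 : ζ * (2 * Real.sinh v) = 0 := by linear_combination h2 - h1
    exact (mul_eq_zero.1 h15).resolve_right (by linarith)
  subst hζ
  rw [zero_add] at h2
  refine ⟨rfl, hv0, rfl, h2, ?_⟩
  have h16 : c * Real.cosh v ^ 2 = Real.cosh v / v := by
    rw [e2', eq_div_iff hv0.ne', mul_comm]
    exact h2
  rw [eq_div_iff (by positivity)]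
  have h17 : c * Real.cosh v ^ 2 * v = Real.cosh v := by
    rw [h16]
    field_simp
  have h18 : Real.cosh v * (c * (v * Real.cosh v) - 1) = 0 := by
    linear_combination h17
  have h19 := (mul_eq_zero.1 h18).resolve_left cv.ne'
  linarith

private theorem cat_end_pos {c z : ℝ} (hc : 0 < c) (hne : ∃ y ∈ cat c z, ‖y‖ < 1)
    (hb : ∀ y ∈ cat c z, ‖y‖ = 1 → y 2 * Real.tanh ((y 2 - z) / c) = c) :
    ∃ s : ℝ, 0 < s ∧ s * Real.tanh s = 1 ∧ {y | y ∈ cat c z ∧ ‖y‖ ≤ 1} =
      {y : E | ∃ σ θ : ℝ, |σ| ≤ s ∧ y = !₂[1 / (s * Real.cosh s) * (Real.cosh σ * Real.cos θ),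
        1 / (s * Real.cosh s) * (Real.cosh σ * Real.sin θ), 1 / (s * Real.cosh s) * σ]} := by
  obtain ⟨q, hq, hq1⟩ := hne
  have hq2 : ff c z (q 2) < 1 := by
    rw [← norm_sq_cat hq]
    exact (sq_lt_one_iff₀ (norm_nonneg _)).2 hq1
  have hqa : |q 2| < 1 := by
    by_contra hcon
    rw [not_lt] at hcon
    exact absurd (one_lt_ff hc.ne' hcon) (not_lt.2 hq2.le)
  rw [abs_lt] at hqa
  -- the two ends
  obtain ⟨b, hb1, hb2⟩ : ∃ b, q 2 < b ∧ ff c z b = 1 := by
    have h1 : (1 : ℝ) ∈ Set.Icc (ff c z (q 2)) (ff c z 1) := ⟨hq2.le, (one_lt_ff hc.ne' (by simp)).le⟩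
    obtain ⟨b, hb1, hb2⟩ := intermediate_value_Icc hqa.2.le (continuous_ff c z).continuousOn h1
    refine ⟨b, lt_of_le_of_ne hb1.1 ?_, hb2⟩
    rintro rfl
    rw [hb2] at hq2
    exact lt_irrefl _ hq2
  obtain ⟨a, ha1, ha2⟩ : ∃ a, a < q 2 ∧ ff c z a = 1 := by
    have h1 : (1 : ℝ) ∈ Set.Icc (ff c z (q 2)) (ff c z (-1)) := ⟨hq2.le, (one_lt_ff hc.ne' (by simp)).le⟩
    obtain ⟨a, ha1, ha2⟩ := intermediate_value_Icc' hqa.1.le (continuous_ff c z).continuousOn h1
    refine ⟨a, lt_of_le_of_ne ha1.2 ?_, ha2⟩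
    rintro rfl
    rw [ha2] at hq2
    exact lt_irrefl _ hq2
  -- `{ff ≤ 1} = [a, b]`
  have hconv : ∀ x y t : ℝ, x < t → t < y → ff c z t * (y - x) ≤ (y - t) * ff c z x + (t - x) * ff c z y := by
    intro x y t hx hy
    have hxy : 0 < y - x := by linarith
    have h1 := ff_conv (c := c) (z := z) (a := (y - t) / (y - x)) (b := (t - x) / (y - x))
      (div_nonneg (by linarith) hxy.le) (div_nonneg (by linarith) hxy.le)
      (by rw [← add_div]; rw [show y - t + (t - x) = y - x by ring, div_self hxy.ne']) x y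
    have e : (y - t) / (y - x) * x + (t - x) / (y - x) * y = t := by
      field_simp
      ring
    rw [e] at h1
    have h2 := mul_le_mul_of_nonneg_right h1 hxy.le
    refine h2.trans (le_of_eq ?_)
    field_simp
  have hset : ∀ t, ff c z t ≤ 1 ↔ a ≤ t ∧ t ≤ b := by
    intro t
    constructor
    · intro ht
      constructor
      · by_contra hcon
        rw [not_le] at hcon
        have h1 := hconv t (q 2) a hcon ha1
        rw [ha2] at h1
        nlinarith
      · by_contra hcon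
        rw [not_le] at hcon
        have h1 := hconv (q 2) t b hb1 hcon
        rw [hb2] at h1
        nlinarith
    · rintro ⟨h1, h2⟩
      rcases h1.eq_or_lt with h | h
      · rw [← h, ha2]
      rcases h2.eq_or_lt with h' | h'
      · rw [h', hb2]
      have h3 := hconv a b t h h'
      rw [ha2, hb2] at h3
      nlinarith
  have hend : ∀ t, ff c z t = 1 → (z / c + (t - z) / c) * Real.sinh ((t - z) / c) = Real.cosh ((t - z) / c) ∧
      c ^ 2 * (Real.cosh ((t - z) / c) ^ 2 + (z / c + (t - z) / c) ^ 2) = 1 := by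
    intro t ht
    have e : z / c + (t - z) / c = t / c := by rw [← add_div]; congr 1; ring
    have h1 := hb (pc c z (t, 0)) (pc_mem c z _) (norm_pc_eq ht)
    have h2 : pc c z (t, 0) 2 = t := rfl
    rw [h2, Real.tanh_eq_sinh_div_cosh] at h1
    have hch := Real.cosh_pos ((t - z) / c)
    rw [e]
    constructor
    · rw [← mul_div_assoc, div_eq_iff hch.ne'] at h1
      rw [div_mul_eq_mul_div, div_eq_iff hc.ne']
      linarith
    · rw [ff] at ht
      rw [div_pow]
      field_simp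
      linarith
  obtain ⟨p1, p2⟩ := hend a ha2
  obtain ⟨p3, p4⟩ := hend b hb2
  have hab : (a - z) / c < (b - z) / c := by
    rw [div_lt_div_iff_of_pos_right hc]
    linarith
  obtain ⟨hz, hv, huv, hvs, hcv⟩ := two_ends hc hab p1 p3 p2 p4
  have hz0 : z = 0 := (div_eq_zero_iff.1 hz).resolve_right hc.ne'
  subst hz0
  rw [sub_zero] at hv huv hvs hcv
  rw [sub_zero] at huv
  set s := b / c with hs
  have hb' : b = c * s := by rw [hs]; field_simp
  have ha' : a = -(c * s) := by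
    have : a = c * (a / c) := by field_simp
    rw [this, huv]
    ring
  refine ⟨s, hv, ?_, ?_⟩
  · rw [Real.tanh_eq_sinh_div_cosh, ← mul_div_assoc, hvs, div_self (Real.cosh_pos s).ne']
  · rw [← hcv]
    ext y
    constructor
    · rintro ⟨hy, hy1⟩
      obtain ⟨θ, hθ⟩ := exists_pc hc.ne' hy
      have h1 : ff c 0 (y 2) ≤ 1 := by
        rw [hθ, norm_pc_le] at hy1
        exact hy1
      obtain ⟨h2, h3⟩ := (hset _).1 h1
      refine ⟨y 2 / c, θ, ?_, ?_⟩
      · rw [abs_le, le_div_iff₀ hc, div_le_iff₀ hc]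
        constructor <;> linarith
      · refine hθ.trans ?_
        ext i
        fin_cases i
        · show c * Real.cosh ((y 2 - 0) / c) * Real.cos θ = c * (Real.cosh (y 2 / c) * Real.cos θ)
          rw [sub_zero]
          ring
        · show c * Real.cosh ((y 2 - 0) / c) * Real.sin θ = c * (Real.cosh (y 2 / c) * Real.sin θ)
          rw [sub_zero]
          ring
        · show y 2 = c * (y 2 / c)
          field_simp
    · rintro ⟨σ, θ, hσ, rfl⟩
      have h1 : (!₂[c * (Real.cosh σ * Real.cos θ), c * (Real.cosh σ * Real.sin θ), c * σ] : E) =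
          pc c 0 (c * σ, θ) := by
        ext i
        fin_cases i
        · show c * (Real.cosh σ * Real.cos θ) = c * Real.cosh ((c * σ - 0) / c) * Real.cos θ
          rw [sub_zero, mul_div_cancel_left₀ _ hc.ne']
          ring
        · show c * (Real.cosh σ * Real.sin θ) = c * Real.cosh ((c * σ - 0) / c) * Real.sin θ
          rw [sub_zero, mul_div_cancel_left₀ _ hc.ne']
          ring
        · rfl
      rw [h1]
      refine ⟨pc_mem c 0 _, norm_pc_le.2 ((hset _).2 ?_)⟩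
      rw [abs_le] at hσ
      constructor
      · show a ≤ c * σ
        rw [ha']
        nlinarith
      · show c * σ ≤ b
        rw [hb']
        nlinarith

/-- A catenoid with vertical axis which meets the unit sphere orthogonally is the critical catenoid. -/
theorem cat_end {c z : ℝ} (hc : c ≠ 0) (hne : ∃ y ∈ cat c z, ‖y‖ < 1)
    (hb : ∀ y ∈ cat c z, ‖y‖ = 1 → y 2 * Real.tanh ((y 2 - z) / c) = c) :
    ∃ s : ℝ, 0 < s ∧ s * Real.tanh s = 1 ∧ {y | y ∈ cat c z ∧ ‖y‖ ≤ 1} =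
      {y : E | ∃ σ θ : ℝ, |σ| ≤ s ∧ y = !₂[1 / (s * Real.cosh s) * (Real.cosh σ * Real.cos θ),
        1 / (s * Real.cosh s) * (Real.cosh σ * Real.sin θ), 1 / (s * Real.cosh s) * σ]} := by
  rcases lt_or_gt_of_ne hc with h | h
  · have h1 := cat_end_pos (c := -c) (z := z) (by linarith) (by rwa [cat_neg]) (by
      intro y hy hy1
      rw [cat_neg] at hy
      rw [div_neg, Real.tanh_neg, mul_neg, hb y hy hy1])
    rwa [cat_neg] at h1
  · exact cat_end_pos h hne hb

end Pool.Agent.Helper99.RS
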