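import Pool.Agent.Helper83.RS.Stereo

/-!
# RS: the components of `{φ > 0}`

`LCon F`: the surface is locally path connected (leaf LC). `NoFive F φ`: there are no five pairwise disjoint nonempty
pieces of `{φ > 0}` (lemma A). `comp F φ y`: the path component of `y` in `{φ > 0}`.
-/

set_option autoImplicit false

open scoped ContDiff Topology

namespace Pool.Agent.Helper99.RS

open Pool.Agent.Helper78.FB

variable {F φ : E → ℝ}

def LCon (F : E → ℝ) : Prop :=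
  ∀ z ∈ surf F, ∀ e : ℝ, 0 < e → ∃ V : Set E, IsOpen V ∧ z ∈ V ∧ V ⊆ Metric.ball z e ∧ IsPathConnected (surf F ∩ V)

def NoFive (F φ : E → ℝ) : Prop :=
  ∀ C : Fin 5 → Set E, (∀ i, Piece F φ (C i)) → (∀ i, (C i).Nonempty) → (∀ i j, i ≠ j → Disjoint (C i) (C j)) → False

def posS (F φ : E → ℝ) : Set E := {y | y ∈ surf F ∧ 0 < φ y}

def comp (F φ : E → ℝ) (y : E) : Set E := {x | JoinedIn (posS F φ) y x}

theorem mem_comp_self {y : E} (hy : y ∈ posS F φ) : y ∈ comp F φ y := JoinedIn.refl hy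

theorem comp_sub {y : E} : comp F φ y ⊆ posS F φ := fun _ hx => JoinedIn.target_mem hx

theorem comp_eq_of_mem {x y : E} (hx : x ∈ comp F φ y) : comp F φ x = comp F φ y := by
  ext z
  exact ⟨fun hz => JoinedIn.trans hx hz, fun hz => JoinedIn.trans (JoinedIn.symm hx) hz⟩

theorem comp_disjoint {x y : E} (h : comp F φ x ≠ comp F φ y) : Disjoint (comp F φ x) (comp F φ y) := by
  rw [Set.disjoint_left]
  intro z hx hy
  exact h ((comp_eq_of_mem hx).symm.trans (comp_eq_of_mem hy))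

theorem isPathConnected_comp {y : E} (hy : y ∈ posS F φ) : IsPathConnected (comp F φ y) := by
  refine ⟨y, mem_comp_self hy, fun {x} hx => ?_⟩
  obtain ⟨γ, hγ⟩ := id hx
  refine ⟨γ, fun t => ?_⟩
  -- the initial part of the path joins `y` to `γ t` inside `posS`
  refine ⟨(γ.truncateOfLE (t₀ := 0) (t₁ := t) t.2.1).cast (by simp) (by simp), fun s => ?_⟩
  rw [Path.cast_coe]
  have h1 := γ.truncate_range (t₀ := 0) (t₁ := t)
  have h2 : (γ.truncateOfLE (t₀ := 0) (t₁ := t) t.2.1) s ∈ Set.range γ := by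
    rw [Path.truncateOfLE, Path.cast_coe]
    exact h1 ⟨s, rfl⟩
  obtain ⟨s', hs'⟩ := h2
  rw [← hs']
  exact hγ s'

/-- Near a point of `{φ > 0}` all points of the surface are joined to it in `{φ > 0}`. -/
theorem near (hlc : LCon F) (hφ : Continuous φ) {y : E} (hy : y ∈ posS F φ) :
    ∃ ε : ℝ, 0 < ε ∧ ∀ x ∈ surf F, x ∈ Metric.ball y ε → JoinedIn (posS F φ) y x := by
  have h1 : IsOpen {x | 0 < φ x} := isOpen_lt continuous_const hφ
  obtain ⟨e, he, hb⟩ := Metric.isOpen_iff.1 h1 y hy.2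
  obtain ⟨V, hV, hyV, hVe, hp⟩ := hlc y hy.1 e he
  obtain ⟨ε, hε, hεV⟩ := Metric.isOpen_iff.1 hV y hyV
  refine ⟨ε, hε, fun x hx hxy => ?_⟩
  refine (hp.joinedIn y ⟨hy.1, hyV⟩ x ⟨hx, hεV hxy⟩).mono ?_
  exact fun z hz => ⟨hz.1, hb (hVe hz.2)⟩

theorem piece_comp (hlc : LCon F) (hφ : Continuous φ) (y : E) : Piece F φ (comp F φ y) where
  sub x hx := comp_sub hx
  opn x hx := by
    obtain ⟨ε, hε, h⟩ := near hlc hφ (comp_sub hx)
    exact ⟨ε, hε, fun z hz hzx => JoinedIn.trans hx (h z hz hzx)⟩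
  cls x hx h0 hn := by
    obtain ⟨ε, hε, h⟩ := near hlc hφ (y := x) ⟨hx, h0⟩
    exact ⟨ε, hε, fun z hz hzx hz' => hn (JoinedIn.trans hz' (h z hz hzx).symm)⟩

/-! ### Rotations -/

theorem joinedIn_rot {t : ℝ} (hF : ∀ y, F (rot t y) = F y) (hφ : ∀ y, φ (rot t y) = φ y) {x y : E}
    (h : JoinedIn (posS F φ) x y) : JoinedIn (posS F φ) (rot t x) (rot t y) := by
  obtain ⟨γ, hγ⟩ := h
  exact ⟨γ.map (continuous_rot t), fun s => ⟨(surf_rot hF).2 (hγ s).1, by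
    show 0 < φ (rot t (γ s))
    rw [hφ]
    exact (hγ s).2⟩⟩

theorem posS_rot {t : ℝ} (hF : ∀ y, F (rot t y) = F y) (hφ : ∀ y, φ (rot t y) = φ y) {y : E} :
    rot t y ∈ posS F φ ↔ y ∈ posS F φ := by
  rw [posS, Set.mem_ofPred_eq, Set.mem_ofPred_eq, surf_rot hF, hφ]

theorem inv_mul {f : E → ℝ} {t : ℝ} (hf : ∀ y, f (rot t y) = f y) (k : ℤ) (y : E) :
    f (rot (k * t) y) = f y := by
  obtain ⟨m, rfl | rfl⟩ := k.eq_nat_or_neg
  · exact_mod_cast inv_nsmul hf m y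
  · have h1 := inv_neg (F := f) (t := (m : ℝ) * t) (fun y => inv_nsmul hf m y) y
    have e : (((-(m : ℤ) : ℤ) : ℝ)) * t = -((m : ℝ) * t) := by push_cast; ring
    rw [e]
    exact h1

/-- Without five disjoint pieces, each component is mapped to itself by one of the rotations. -/
theorem exists_stab (hlc : LCon F) (hφc : Continuous φ) (h5 : NoFive F φ) {n : ℕ} (hn : 5 ≤ n)
    (hF : ∀ y, F (rot (2 * Real.pi / n) y) = F y) (hφ : ∀ y, φ (rot (2 * Real.pi / n) y) = φ y) {y : E}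
    (hy : y ∈ posS F φ) :
    ∃ j : ℕ, 0 < j ∧ j < n ∧ ∀ x ∈ comp F φ y, rot (2 * Real.pi * j / n) x ∈ comp F φ y := by
  have hF' : ∀ (k : ℤ) (y : E), F (rot (k * (2 * Real.pi / n)) y) = F y := fun k y => inv_mul hF k y
  have hφ' : ∀ (k : ℤ) (y : E), φ (rot (k * (2 * Real.pi / n)) y) = φ y := fun k y => inv_mul hφ k y
  have hmem : ∀ k : ℤ, rot (k * (2 * Real.pi / n)) y ∈ posS F φ := fun k =>
    (posS_rot (hF' k) (hφ' k)).2 hy
  obtain ⟨a, b, hab, hne⟩ : ∃ a b : Fin 5, a < b ∧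
      ¬ Disjoint (comp F φ (rot (((a : ℕ) : ℤ) * (2 * Real.pi / n)) y))
        (comp F φ (rot (((b : ℕ) : ℤ) * (2 * Real.pi / n)) y)) := by
    by_contra hc
    push Not at hc
    refine h5 (fun i => comp F φ (rot (((i : ℕ) : ℤ) * (2 * Real.pi / n)) y)) (fun i => piece_comp hlc hφc _)
      (fun i => ⟨_, mem_comp_self (hmem _)⟩) fun i j hij => ?_
    rcases lt_or_gt_of_ne hij with h | h
    · exact hc i j h
    · exact (hc j i h).symm
  have heq : comp F φ (rot (((a : ℕ) : ℤ) * (2 * Real.pi / n)) y) =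
      comp F φ (rot (((b : ℕ) : ℤ) * (2 * Real.pi / n)) y) := by
    by_contra hc
    exact hne (comp_disjoint hc)
  have h1 : JoinedIn (posS F φ) (rot (((a : ℕ) : ℤ) * (2 * Real.pi / n)) y)
      (rot (((b : ℕ) : ℤ) * (2 * Real.pi / n)) y) := by
    show rot (((b : ℕ) : ℤ) * (2 * Real.pi / n)) y ∈ comp F φ (rot (((a : ℕ) : ℤ) * (2 * Real.pi / n)) y)
    rw [heq]
    exact mem_comp_self (hmem _)
  have h2 := joinedIn_rot (hF' (-((a : ℕ) : ℤ))) (hφ' (-((a : ℕ) : ℤ))) h1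
  rw [← rot_add, ← rot_add] at h2
  have e1 : ((-((a : ℕ) : ℤ) : ℤ) : ℝ) * (2 * Real.pi / n) + (((a : ℕ) : ℤ) : ℝ) * (2 * Real.pi / n) = 0 := by
    push_cast
    ring
  have e2 : ((-((a : ℕ) : ℤ) : ℤ) : ℝ) * (2 * Real.pi / n) + (((b : ℕ) : ℤ) : ℝ) * (2 * Real.pi / n) =
      2 * Real.pi * ((b - a : ℕ) : ℝ) / n := by
    rw [Nat.cast_sub (Fin.le_def.1 hab.le)]
    push_cast
    ring
  rw [e1, e2, rot_id] at h2
  have hlt := Fin.lt_def.1 hab
  have hb5 := b.2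
  refine ⟨b - a, by omega, by omega, fun x hx => ?_⟩
  have e3 : 2 * Real.pi * ((b - a : ℕ) : ℝ) / n = (((b - a : ℕ) : ℤ) : ℝ) * (2 * Real.pi / n) := by
    push_cast
    ring
  have h3 : JoinedIn (posS F φ) (rot (2 * Real.pi * ((b - a : ℕ) : ℝ) / n) y)
      (rot (2 * Real.pi * ((b - a : ℕ) : ℝ) / n) x) := by
    rw [e3]
    exact joinedIn_rot (hF' _) (hφ' _) hx
  exact JoinedIn.trans h2 h3

/-! ### Finitely many components -/

theorem finite_comps (hlc : LCon F) (hφc : Continuous φ) (h5 : NoFive F φ) :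
    (comp F φ '' posS F φ).Finite := by
  by_contra hinf
  obtain ⟨T, hT, hcard⟩ := Set.Infinite.exists_subset_card_eq hinf 5
  let e : Fin 5 ≃ T := (T.equivFinOfCardEq hcard).symm
  have hmem : ∀ i, ((e i : T) : Set E) ∈ comp F φ '' posS F φ := fun i => hT (e i).2
  choose y hy hy' using hmem
  refine h5 (fun i => comp F φ (y i)) (fun i => piece_comp hlc hφc _) (fun i => ⟨_, mem_comp_self (hy i)⟩)
    fun i j hij => comp_disjoint fun h => hij ?_
  rw [hy', hy'] at h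
  exact e.injective (Subtype.ext h)

/-- An accumulation point of `{φ > 0}` is an accumulation point of one component. -/
theorem exists_comp_acc (hlc : LCon F) (hφc : Continuous φ) (h5 : NoFive F φ) {e : E}
    (he : ∀ δ : ℝ, 0 < δ → ∃ y ∈ posS F φ, y ∈ Metric.ball e δ) :
    ∃ y ∈ posS F φ, ∀ δ : ℝ, 0 < δ → ∃ x ∈ comp F φ y, x ∈ Metric.ball e δ := by
  by_contra hc
  push Not at hc
  choose! δ hδ hδ' using hc
  have hfin := finite_comps hlc hφc h5
  have h1 : ∀ C ∈ comp F φ '' posS F φ, ∃ d : ℝ, 0 < d ∧ ∀ x ∈ C, x ∉ Metric.ball e d := by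
    rintro C ⟨y, hy, rfl⟩
    exact ⟨δ y, hδ y hy, hδ' y hy⟩
  choose! d hd hd' using h1
  obtain ⟨D, hD, hDle⟩ : ∃ D : ℝ, 0 < D ∧ ∀ C ∈ comp F φ '' posS F φ, D ≤ d C := by
    rcases (comp F φ '' posS F φ).eq_empty_or_nonempty with h | h
    · exact ⟨1, one_pos, by simp [h]⟩
    · obtain ⟨C, hC, hmin⟩ := Set.exists_min_image _ d hfin h
      exact ⟨d C, hd C hC, hmin⟩
  obtain ⟨y, hy, hye⟩ := he D hD
  exact hd' _ ⟨y, hy, rfl⟩ y (mem_comp_self hy) (Metric.ball_subset_ball (hDle _ ⟨y, hy, rfl⟩) hye)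

end Pool.Agent.Helper99.RS
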