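import Pool.Agent.Helper83.RS.Stereo
import Mathlib.Analysis.Complex.CoveringMap
import Mathlib.Topology.Homotopy.Lifting

/-!
# RS: a path connected set which is invariant under a rotation winds around the axis
-/

set_option autoImplicit false

namespace Pool.Agent.Helper99.RS

open Pool.Agent.Helper78.FB

/-- A path in `ℂ \ {0}` has a continuous logarithm. -/
theorem exists_log_path (γ : C(unitInterval, ℂ)) (h : ∀ t, γ t ≠ 0) :
    ∃ g : C(unitInterval, ℂ), ∀ t, Complex.exp (g t) = γ t := by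
  obtain ⟨e, he⟩ : ∃ e : ℂ, Complex.exp e = γ 0 := ⟨Complex.log (γ 0), Complex.exp_log (h 0)⟩
  let γ' : C(unitInterval, {z : ℂ // z ≠ 0}) := ⟨fun t => ⟨γ t, h t⟩, by fun_prop⟩
  obtain ⟨g, hg, -⟩ := Complex.isCoveringMap_exp.exists_path_lifts γ' e (Subtype.ext he.symm)
  refine ⟨g, fun t => ?_⟩
  have h1 := congrFun hg t
  exact congrArg Subtype.val h1

/-- A path connected set `D` which is mapped into itself by the rotation by `2 π j / n`, `0 < j < n`, contains
a path whose image under `pj ^ n` is a loop around `0`. -/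
theorem wnd_of_stab {n j : ℕ} (hj : 0 < j) (hjn : j < n) {D : Set E} (hD : IsPathConnected D)
    (hoff : ∀ y ∈ D, y 0 ≠ 0 ∨ y 1 ≠ 0) (hs : ∀ y ∈ D, rot (2 * Real.pi * j / n) y ∈ D) :
    Wnd ((fun y => pj y ^ n) '' D) := by
  have hn : n ≠ 0 := by omega
  have hn' : (n : ℂ) ≠ 0 := by exact_mod_cast hn
  obtain ⟨y, hy, -⟩ := id hD
  obtain ⟨γ, hγ⟩ := hD.joinedIn y hy _ (hs y hy)
  have hpos : ∀ x ∈ D, 0 < ‖x‖ + x 2 := fun x hx => pos_of_off (by have := hoff x hx; tauto)
  have hc : Continuous fun t => pj (γ t) := by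
    refine continuous_iff_continuousAt.2 fun t => ?_
    exact ContinuousAt.comp (g := pj) (continuousAt_pj (hpos _ (hγ t))) γ.continuous.continuousAt
  obtain ⟨g, hg⟩ := exists_log_path ⟨fun t => pj (γ t), hc⟩ fun t => pj_ne_zero (hoff _ (hγ t))
  replace hg : ∀ t, Complex.exp (g t) = pj (γ t) := hg
  have hg0 := hg 0
  have hg1 := hg 1
  rw [γ.source] at hg0
  rw [γ.target, pj_rot] at hg1
  refine ⟨⟨fun t => n * g t, by fun_prop⟩, fun t => ⟨γ t, hγ t, ?_⟩, ?_, ?_⟩
  · show pj (γ t) ^ n = Complex.exp (n * g t)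
    rw [Complex.exp_nat_mul, hg]
  · show Complex.exp (n * g 0) = Complex.exp (n * g 1)
    rw [Complex.exp_nat_mul, Complex.exp_nat_mul, hg0, hg1, mul_pow, ← Complex.exp_nat_mul]
    have e : (n : ℂ) * (Complex.I * ((2 * Real.pi * j / n : ℝ) : ℂ)) = j * (2 * Real.pi * Complex.I) := by
      push_cast
      field_simp
    rw [e, Complex.exp_nat_mul_two_pi_mul_I, one_mul]
  · show (n : ℂ) * g 0 ≠ n * g 1
    intro h
    have h1 : g 0 = g 1 := mul_left_cancel₀ hn' h
    rw [h1, hg1] at hg0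
    have hp : pj y ≠ 0 := pj_ne_zero (hoff y hy)
    have h2 : Complex.exp (Complex.I * ((2 * Real.pi * j / n : ℝ) : ℂ)) = 1 := by
      apply mul_right_cancel₀ hp
      rw [hg0, one_mul]
    rw [Complex.exp_eq_one_iff] at h2
    obtain ⟨m, hm⟩ := h2
    have hpi : (2 * Real.pi * Complex.I : ℂ) ≠ 0 := Complex.two_pi_I_ne_zero
    have h3 : (j : ℂ) = m * n := by
      have h4 : (2 * Real.pi * Complex.I : ℂ) * j = (2 * Real.pi * Complex.I) * (m * n) := by
        have h5 : Complex.I * ((2 * Real.pi * j / n : ℝ) : ℂ) * n = m * (2 * Real.pi * Complex.I) * n := by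
          rw [hm]
        have h6 : Complex.I * ((2 * Real.pi * j / n : ℝ) : ℂ) * n = 2 * Real.pi * Complex.I * j := by
          push_cast
          field_simp
        rw [h6] at h5
        rw [h5]
        ring
      exact mul_left_cancel₀ hpi h4
    have h7 : (j : ℤ) = m * n := by exact_mod_cast h3
    have h8 : (0 : ℤ) < m := by
      by_contra h9
      have : m * (n : ℤ) ≤ 0 := mul_nonpos_of_nonpos_of_nonneg (by omega) (by positivity)
      omega
    have h10 : (n : ℤ) ≤ m * n := by nlinarith [show (0 : ℤ) ≤ n by positivity]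
    omega

end Pool.Agent.Helper99.RS
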