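import Pool.Agent.Helper83.RS.Comp
import Pool.Agent.Helper83.RS.Loop
import Pool.Agent.Helper86.RS.Wind

/-!
# RS: the end of the proof (part C)

`no_nodal_end`: under a rotation of order `n ≥ 5`, if neither sign has five disjoint pieces, there is no point `e` of
the zero set, nearest to the north axis among the points of `closure {φ ≠ 0}`, at which both signs accumulate.
-/

set_option autoImplicit false

open scoped ContDiff Topology

namespace Pool.Agent.Helper99.RS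

open Pool.Agent.Helper78.FB

variable {F φ : E → ℝ} {n : ℕ}

/-- The map `pj ^ n`. -/
noncomputable def zh (n : ℕ) (y : E) : ℂ := pj y ^ n

/-- Two points of a star-shaped surface with the same image under `zh n` are related by a rotation. -/
theorem rot_eq_of_zh_eq (hn : n ≠ 0) (hF : ∀ y, F (rot (2 * Real.pi / n) y) = F y)
    (hφ : ∀ y, φ (rot (2 * Real.pi / n) y) = φ y)
    (hrad : ∀ x ∈ surf F, ∀ y ∈ surf F, ‖y‖ • x = ‖x‖ • y → x = y) {x y : E} (hx : x ∈ surf F) (hy : y ∈ surf F)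
    (hx0 : 0 < ‖x‖ + x 2) (hy0 : 0 < ‖y‖ + y 2) (h : zh n x = zh n y) : φ x = φ y := by
  obtain ⟨j, hj, hj'⟩ := exists_rot_of_pj_pow_eq hn hx0 hy0 h
  have e : 2 * Real.pi * j / n = ((j : ℤ) : ℝ) * (2 * Real.pi / n) := by
    push_cast
    ring
  rw [e] at hj'
  have h1 : rot (((j : ℤ) : ℝ) * (2 * Real.pi / n)) y ∈ surf F := (surf_rot (inv_mul hF j)).2 hy
  have h2 : x = rot (((j : ℤ) : ℝ) * (2 * Real.pi / n)) y := by
    apply hrad x hx _ h1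
    rw [norm_rot]
    exact hj'
  rw [h2, inv_mul hφ]

theorem acc_of_end (hn : n ≠ 0) (hF : ∀ y, F (rot (2 * Real.pi / n) y) = F y)
    (hφ : ∀ y, φ (rot (2 * Real.pi / n) y) = φ y) (haxis : ∀ y : E, y 0 = 0 → y 1 = 0 → φ y = 0)
    (hrad : ∀ x ∈ surf F, ∀ y ∈ surf F, ‖y‖ • x = ‖x‖ • y → x = y) (h0 : ∀ y ∈ surf F, y ≠ 0) {e : E}
    (he : e ∈ surf F) (he0 : φ e = 0) (hmax : ∀ y ∈ surf F, φ y ≠ 0 → y 2 / ‖y‖ ≤ e 2 / ‖e‖) {D D' : Set E}
    (hD : ∀ x ∈ D, x ∈ surf F ∧ φ x ≠ 0) (hD' : ∀ x ∈ D', x ∈ surf F ∧ φ x ≠ 0)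
    (hacc : ∀ δ : ℝ, 0 < δ → ∃ x ∈ D', x ∈ Metric.ball e δ) {K : Set ℂ} (hK : K ⊆ zh n '' D)
    (hKc : IsCompact K) : ∃ b ∈ zh n '' D', JoinedIn Kᶜ 0 b := by
  have hoff : ∀ x : E, φ x ≠ 0 → x 0 ≠ 0 ∨ x 1 ≠ 0 := by
    intro x hx
    by_contra hc
    push Not at hc
    exact hx (haxis x hc.1 hc.2)
  have hpos : ∀ x : E, φ x ≠ 0 → 0 < ‖x‖ + x 2 := fun x hx => pos_of_off (by have := hoff x hx; tauto)
  have hen : 0 < ‖e‖ := norm_pos_iff.2 (h0 e he)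
  -- `e` is not on the negative half axis
  have hepos : 0 < ‖e‖ + e 2 := by
    obtain ⟨x, hx, -⟩ := hacc 1 one_pos
    obtain ⟨hxs, hx0⟩ := hD' x hx
    have h1 := hpos x hx0
    have hxn : 0 < ‖x‖ := norm_pos_iff.2 (h0 x hxs)
    have h2 : -1 < x 2 / ‖x‖ := by
      rw [lt_div_iff₀ hxn]
      linarith
    have h3 := h2.trans_le (hmax x hxs hx0)
    rw [lt_div_iff₀ hen] at h3
    linarith
  have hle : ∀ a ∈ zh n '' D, ‖zh n e‖ ≤ ‖a‖ := by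
    rintro a ⟨x, hx, rfl⟩
    obtain ⟨hxs, hx0⟩ := hD x hx
    rw [zh, zh, norm_pow, norm_pow]
    exact pow_le_pow_left₀ (norm_nonneg _) (norm_pj_le hepos (hpos x hx0) (hmax x hxs hx0)) n
  have hne : ∀ a ∈ zh n '' D, a ≠ 0 := by
    rintro a ⟨x, hx, rfl⟩
    exact pow_ne_zero n (pj_ne_zero (hoff x (hD x hx).2))
  have heK : zh n e ∉ K := by
    intro h1
    obtain ⟨x, hx, hx'⟩ := hK h1
    have h2 := rot_eq_of_zh_eq hn hF hφ hrad (hD x hx).1 he (hpos x (hD x hx).2) hepos hx'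
    rw [he0] at h2
    exact (hD x hx).2 h2
  have hKo : IsOpen Kᶜ := hKc.isClosed.isOpen_compl
  obtain ⟨r, hr, hball⟩ := Metric.isOpen_iff.1 hKo (zh n e) heK
  have hcont : ContinuousAt (zh n) e := (continuousAt_pj hepos).pow n
  obtain ⟨δ, hδ, hδ'⟩ := Metric.continuousAt_iff.1 hcont r hr
  obtain ⟨x, hx, hxe⟩ := hacc δ hδ
  refine ⟨zh n x, ⟨x, hx, rfl⟩, ?_⟩
  have hxb : zh n x ∈ Metric.ball (zh n e) r := hδ' hxe
  have j1 : JoinedIn Kᶜ 0 (zh n e) := by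
    refine JoinedIn.of_segment_subset ?_
    intro z hz hzK
    rw [segment_eq_image] at hz
    obtain ⟨s, ⟨hs0, hs1⟩, rfl⟩ := hz
    have hzA := hK hzK
    have h1 := hle _ hzA
    have h2 := hne _ hzA
    simp only [smul_zero, zero_add] at h1 h2 hzK
    rw [norm_smul, Real.norm_eq_abs, abs_of_nonneg hs0] at h1
    have h3 : zh n e ≠ 0 := fun h => h2 (by rw [h, smul_zero])
    have h4 : 0 < ‖zh n e‖ := norm_pos_iff.2 h3
    have h5 : 1 ≤ s := by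
      by_contra hc
      rw [not_le] at hc
      nlinarith
    have h6 : s = 1 := le_antisymm hs1 h5
    rw [h6, one_smul] at hzK
    exact heK hzK
  have j2 : JoinedIn Kᶜ (zh n e) (zh n x) := by
    refine JoinedIn.mono ?_ hball
    exact ((convex_ball (zh n e) r).isPathConnected ⟨_, hxb⟩).joinedIn _ (Metric.mem_ball_self hr) _ hxb
  exact j1.trans j2

theorem no_nodal_end (hn : 5 ≤ n) (hlc : LCon F) (hφc : Continuous φ)
    (hF : ∀ y, F (rot (2 * Real.pi / n) y) = F y) (hφ : ∀ y, φ (rot (2 * Real.pi / n) y) = φ y)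
    (haxis : ∀ y : E, y 0 = 0 → y 1 = 0 → φ y = 0)
    (hrad : ∀ x ∈ surf F, ∀ y ∈ surf F, ‖y‖ • x = ‖x‖ • y → x = y) (h0 : ∀ y ∈ surf F, y ≠ 0)
    (h5 : NoFive F φ) (h5' : NoFive F fun y => -φ y) {e : E} (he : e ∈ surf F) (he0 : φ e = 0)
    (hmax : ∀ y ∈ surf F, φ y ≠ 0 → y 2 / ‖y‖ ≤ e 2 / ‖e‖)
    (hp : ∀ δ : ℝ, 0 < δ → ∃ y ∈ surf F, y ∈ Metric.ball e δ ∧ 0 < φ y)
    (hm : ∀ δ : ℝ, 0 < δ → ∃ y ∈ surf F, y ∈ Metric.ball e δ ∧ φ y < 0) : False := by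
  have hn0 : n ≠ 0 := by omega
  have hoff : ∀ x : E, φ x ≠ 0 → x 0 ≠ 0 ∨ x 1 ≠ 0 := by
    intro x hx
    by_contra hc
    push Not at hc
    exact hx (haxis x hc.1 hc.2)
  have hpos : ∀ x : E, φ x ≠ 0 → 0 < ‖x‖ + x 2 := fun x hx => pos_of_off (by have := hoff x hx; tauto)
  have hφc' : Continuous fun y => -φ y := hφc.neg
  have hφ' : ∀ y, (fun y => -φ y) (rot (2 * Real.pi / n) y) = (fun y => -φ y) y := fun y => by
    simp only [hφ]
  obtain ⟨y, hy, hyacc⟩ := exists_comp_acc hlc hφc h5 (e := e) fun δ hδ => by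
    obtain ⟨y, h1, h2, h3⟩ := hp δ hδ
    exact ⟨y, ⟨h1, h3⟩, h2⟩
  obtain ⟨y', hy', hyacc'⟩ := exists_comp_acc hlc hφc' h5' (e := e) fun δ hδ => by
    obtain ⟨y, h1, h2, h3⟩ := hm δ hδ
    exact ⟨y, ⟨h1, by simpa using h3⟩, h2⟩
  have hD : ∀ x ∈ comp F φ y, x ∈ surf F ∧ φ x ≠ 0 := fun x hx =>
    ⟨(comp_sub hx).1, (comp_sub hx).2.ne'⟩
  have hD' : ∀ x ∈ comp F (fun y => -φ y) y', x ∈ surf F ∧ φ x ≠ 0 := fun x hx => by
    have h1 := comp_sub hx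
    refine ⟨h1.1, fun h2 => ?_⟩
    have h3 := h1.2
    simp [h2] at h3
  obtain ⟨j, hj, hjn, hs⟩ := exists_stab hlc hφc h5 hn hF hφ hy
  obtain ⟨j', hj', hjn', hs'⟩ := exists_stab hlc hφc' h5' hn hF hφ' hy'
  have hcont : ∀ D : Set E, (∀ x ∈ D, x ∈ surf F ∧ φ x ≠ 0) → ContinuousOn (zh n) D := fun D hD =>
    (continuousOn_pj fun x hx => hpos x (hD x hx).2).pow n
  refine nested ((isPathConnected_comp hy).image' (hcont _ hD)) ((isPathConnected_comp hy').image' (hcont _ hD'))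
    ?_ ?_ ?_ (wnd_of_stab hj hjn (isPathConnected_comp hy) (fun x hx => hoff x (hD x hx).2) hs)
    (wnd_of_stab hj' hjn' (isPathConnected_comp hy') (fun x hx => hoff x (hD' x hx).2) hs')
    (fun K hK hKc => acc_of_end hn0 hF hφ haxis hrad h0 he he0 hmax hD hD' hyacc' hK hKc)
    (fun K hK hKc => acc_of_end hn0 hF hφ haxis hrad h0 he he0 hmax hD' hD hyacc hK hKc)
  · rw [Set.disjoint_left]
    rintro a ⟨x, hx, rfl⟩ ⟨x', hx', h1⟩
    have h2 := rot_eq_of_zh_eq hn0 hF hφ hrad (hD' x' hx').1 (hD x hx).1 (hpos x' (hD' x' hx').2)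
      (hpos x (hD x hx).2) h1
    have h3 := (comp_sub hx).2
    have h4 := (comp_sub hx').2
    simp only at h4
    linarith
  · rintro ⟨x, hx, h1⟩
    exact pow_ne_zero n (pj_ne_zero (hoff x (hD x hx).2)) h1
  · rintro ⟨x, hx, h1⟩
    exact pow_ne_zero n (pj_ne_zero (hoff x (hD' x hx).2)) h1

end Pool.Agent.Helper99.RS
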