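import Pool.Agent.Helper83.RS.End

/-!
# RS: the south end

`crossing'`: a set which winds around `0` is not disjoint from a path connected set which is accessible from `0` and
from infinity. `nested_far`: two disjoint winding sets are not both accessible from infinity. `acc_far`: the
accessibility from infinity at the end nearest to the south axis.
-/

set_option autoImplicit false

open scoped ContDiff Topology

namespace Pool.Agent.Helper99.RS

open Pool.Agent.Helper78.FB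

theorem crossing' {A B : Set ℂ} (wA : Wnd A) (hB : IsPathConnected B) (hd : Disjoint A B)
    (near : ∀ K ⊆ A, IsCompact K → ∃ b ∈ B, JoinedIn Kᶜ 0 b)
    (far : ∀ K ⊆ A, IsCompact K → ∃ b ∈ B, ∀ R : ℝ, ∃ x : ℂ, R < ‖x‖ ∧ JoinedIn Kᶜ b x) : False := by
  obtain ⟨g, hgA, hg, hgw⟩ := wnd_loop wA
  have hK : Set.range g ⊆ A := by
    rintro _ ⟨t, rfl⟩
    exact hgA t
  have hBK : B ⊆ (Set.range g)ᶜ := fun b hb hbK => Set.disjoint_left.1 hd (hK hbK) hb
  obtain ⟨b, hb, hj⟩ := near _ hK (isCompact_range g.continuous)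
  obtain ⟨b', hb', hf⟩ := far _ hK (isCompact_range g.continuous)
  obtain ⟨t, ht⟩ := exists_far g
  obtain ⟨x, hx, hjx⟩ := hf ‖g t‖
  have h1 : JoinedIn (Set.range g)ᶜ 0 x := (hj.trans ((hB.joinedIn b hb b' hb').mono hBK)).trans hjx
  exact not_win hg (fun s => (ht s).trans_lt hx) (win_trans hg h1 hgw)

private theorem nf_aux {A B : Set ℂ} (hB : IsPathConnected B) (hd : Disjoint A B) {g k : C(unitInterval, ℂ)}
    (hgA : ∀ t, g t ∈ A) (hg : g 0 = g 1) (hgw : Win g 0) (hkB : ∀ t, k t ∈ B) {s : unitInterval}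
    (hs : ∀ t, ‖k s‖ ≤ ‖g t‖)
    (farA : ∀ K ⊆ A, IsCompact K → ∃ b ∈ B, ∀ R : ℝ, ∃ x : ℂ, R < ‖x‖ ∧ JoinedIn Kᶜ b x) : False := by
  have hK : Set.range g ⊆ A := by
    rintro _ ⟨t, rfl⟩
    exact hgA t
  have hBK : B ⊆ (Set.range g)ᶜ := fun b hb hbK => Set.disjoint_left.1 hd (hK hbK) hb
  have hg0 : ∀ t, g t ≠ 0 := by
    intro t h0
    obtain ⟨L, hL, -⟩ := hgw
    have := hL t
    rw [h0, sub_zero] at this
    exact Complex.exp_ne_zero _ this
  have h1 : JoinedIn (Set.range g)ᶜ 0 (k s) := by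
    refine JoinedIn.of_segment_subset ?_
    rintro z hz ⟨t, ht⟩
    rw [segment_eq_image] at hz
    obtain ⟨a, ⟨ha0, ha1⟩, rfl⟩ := hz
    simp only [smul_zero, zero_add] at ht
    have h2 := hs t
    have h3 : 0 < ‖g t‖ := norm_pos_iff.2 (hg0 t)
    have h4 : ‖g t‖ = a * ‖k s‖ := by rw [ht, norm_smul, Real.norm_eq_abs, abs_of_nonneg ha0]
    have h5 : a = 1 := by
      refine le_antisymm ha1 ?_
      by_contra hcon
      rw [not_le] at hcon
      have h6 : 0 < ‖k s‖ := by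
        rcases (norm_nonneg (k s)).eq_or_lt with h | h
        · rw [← h, mul_zero] at h4
          linarith
        · exact h
      nlinarith
    rw [h5, one_smul] at ht
    exact Set.disjoint_left.1 hd (hgA t) (ht ▸ hkB s)
  obtain ⟨b, hb, hf⟩ := farA _ hK (isCompact_range g.continuous)
  obtain ⟨t, ht⟩ := exists_far g
  obtain ⟨x, hx, hjx⟩ := hf ‖g t‖
  have h2 : JoinedIn (Set.range g)ᶜ 0 x := (h1.trans ((hB.joinedIn _ (hkB s) b hb).mono hBK)).trans hjx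
  exact not_win hg (fun s => (ht s).trans_lt hx) (win_trans hg h2 hgw)

theorem exists_near (g : C(unitInterval, ℂ)) : ∃ t, ∀ s, ‖g t‖ ≤ ‖g s‖ := by
  obtain ⟨t, -, ht⟩ := isCompact_univ.exists_isMinOn (Set.univ_nonempty (α := unitInterval))
    (f := fun t => ‖g t‖) (by fun_prop)
  exact ⟨t, fun s => ht (Set.mem_univ s)⟩

theorem nested_far {A B : Set ℂ} (hA : IsPathConnected A) (hB : IsPathConnected B) (hd : Disjoint A B)
    (wA : Wnd A) (wB : Wnd B)
    (farA : ∀ K ⊆ A, IsCompact K → ∃ b ∈ B, ∀ R : ℝ, ∃ x : ℂ, R < ‖x‖ ∧ JoinedIn Kᶜ b x)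
    (farB : ∀ K ⊆ B, IsCompact K → ∃ a ∈ A, ∀ R : ℝ, ∃ x : ℂ, R < ‖x‖ ∧ JoinedIn Kᶜ a x) : False := by
  obtain ⟨g, hgA, hg, hgw⟩ := wnd_loop wA
  obtain ⟨k, hkB, hk, hkw⟩ := wnd_loop wB
  obtain ⟨t, ht⟩ := exists_near g
  obtain ⟨s, hs⟩ := exists_near k
  rcases le_total ‖k s‖ ‖g t‖ with h | h
  · exact nf_aux hB hd hgA hg hgw hkB (fun u => h.trans (ht u)) farA
  · exact nf_aux hA hd.symm hkB hk hkw hgA (fun u => h.trans (hs u)) farB

/-- A point whose outward ray misses `K` is joined to infinity. -/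
theorem ray_far {K : Set ℂ} {b : ℂ} (hb : b ≠ 0) (h : ∀ s : ℝ, 1 ≤ s → s • b ∉ K) (R : ℝ) :
    ∃ x : ℂ, R < ‖x‖ ∧ JoinedIn Kᶜ b x := by
  have hb0 : 0 < ‖b‖ := norm_pos_iff.2 hb
  refine ⟨(1 + |R| / ‖b‖) • b, ?_, JoinedIn.of_segment_subset ?_⟩
  · rw [norm_smul, Real.norm_eq_abs, abs_of_nonneg (by positivity), add_mul, one_mul, div_mul_cancel₀ _ hb0.ne']
    have := le_abs_self R
    linarith
  · intro z hz
    rw [segment_eq_image] at hz
    obtain ⟨a, ⟨ha0, ha1⟩, rfl⟩ := hz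
    have e : (1 - a) • b + a • (1 + |R| / ‖b‖) • b = (1 + a * (|R| / ‖b‖)) • b := by
      rw [smul_smul, ← add_smul]
      congr 1
      ring
    show (1 - a) • b + a • (1 + |R| / ‖b‖) • b ∈ Kᶜ
    rw [e]
    exact h _ (by have : 0 ≤ a * (|R| / ‖b‖) := by positivity
                  linarith)

variable {F φ : E → ℝ} {n : ℕ}

theorem acc_far (hn : n ≠ 0) (hF : ∀ y, F (rot (2 * Real.pi / n) y) = F y)
    (hφ : ∀ y, φ (rot (2 * Real.pi / n) y) = φ y) (haxis : ∀ y : E, y 0 = 0 → y 1 = 0 → φ y = 0)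
    (hrad : ∀ x ∈ surf F, ∀ y ∈ surf F, ‖y‖ • x = ‖x‖ • y → x = y) (h0 : ∀ y ∈ surf F, y ≠ 0) {e : E}
    (he : e ∈ surf F) (he0 : φ e = 0) (hmin : ∀ y ∈ surf F, φ y ≠ 0 → e 2 / ‖e‖ ≤ y 2 / ‖y‖) {D D' : Set E}
    (hD : ∀ x ∈ D, x ∈ surf F ∧ φ x ≠ 0) (hD' : ∀ x ∈ D', x ∈ surf F ∧ φ x ≠ 0)
    (hacc : ∀ δ : ℝ, 0 < δ → ∃ x ∈ D', x ∈ Metric.ball e δ) {K : Set ℂ} (hK : K ⊆ zh n '' D)
    (hKc : IsCompact K) : ∃ b ∈ zh n '' D', ∀ R : ℝ, ∃ x : ℂ, R < ‖x‖ ∧ JoinedIn Kᶜ b x := by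
  have hoff : ∀ x : E, φ x ≠ 0 → x 0 ≠ 0 ∨ x 1 ≠ 0 := by
    intro x hx
    by_contra hc
    push Not at hc
    exact hx (haxis x hc.1 hc.2)
  have hpos : ∀ x : E, φ x ≠ 0 → 0 < ‖x‖ + x 2 := fun x hx => pos_of_off (by have := hoff x hx; tauto)
  have hzh0 : ∀ x : E, φ x ≠ 0 → zh n x ≠ 0 := fun x hx => pow_ne_zero n (pj_ne_zero (hoff x hx))
  have hen : 0 < ‖e‖ := norm_pos_iff.2 (h0 e he)
  by_cases hepos : 0 < ‖e‖ + e 2
  · -- `e` is not on the negative half axis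
    have hle : ∀ x ∈ surf F, φ x ≠ 0 → ‖zh n x‖ ≤ ‖zh n e‖ := by
      intro x hxs hx0
      rw [zh, zh, norm_pow, norm_pow]
      exact pow_le_pow_left₀ (norm_nonneg _) (norm_pj_le (hpos x hx0) hepos (hmin x hxs hx0)) n
    have heK : zh n e ∉ K := by
      intro h1
      obtain ⟨x, hx, hx'⟩ := hK h1
      have h2 := rot_eq_of_zh_eq hn hF hφ hrad (hD x hx).1 he (hpos x (hD x hx).2) hepos hx'
      rw [he0] at h2
      exact (hD x hx).2 h2
    have hKo : IsOpen Kᶜ := hKc.isClosed.isOpen_compl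
    obtain ⟨r, hr, hball⟩ := Metric.isOpen_iff.1 hKo (zh n e) heK
    have hcont : ContinuousAt (zh n) e := (continuousAt_pj hepos).pow n
    obtain ⟨δ, hδ, hδ'⟩ := Metric.continuousAt_iff.1 hcont r hr
    obtain ⟨x, hx, hxe⟩ := hacc δ hδ
    have hxb : zh n x ∈ Metric.ball (zh n e) r := hδ' hxe
    have hze : zh n e ≠ 0 := by
      intro h1
      have h2 := hle x (hD' x hx).1 (hD' x hx).2
      rw [h1, norm_zero] at h2
      exact hzh0 x (hD' x hx).2 (norm_le_zero_iff.1 h2)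
    have j2 : JoinedIn Kᶜ (zh n x) (zh n e) := by
      refine JoinedIn.mono ?_ hball
      exact ((convex_ball (zh n e) r).isPathConnected ⟨_, hxb⟩).joinedIn _ hxb _ (Metric.mem_ball_self hr)
    refine ⟨zh n x, ⟨x, hx, rfl⟩, fun R => ?_⟩
    obtain ⟨x', h1, h2⟩ := ray_far (K := K) hze (fun s hs hsK => by
      obtain ⟨u, hu, hu'⟩ := hK hsK
      have h3 := hle u (hD u hu).1 (hD u hu).2
      rw [hu', norm_smul, Real.norm_eq_abs, abs_of_nonneg (by linarith)] at h3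
      have h4 : 0 < ‖zh n e‖ := norm_pos_iff.2 hze
      have h5 : s = 1 := by
        refine le_antisymm ?_ hs
        by_contra hcon
        rw [not_le] at hcon
        nlinarith
      rw [h5, one_smul] at hsK
      exact heK hsK) R
    exact ⟨x', h1, j2.trans h2⟩
  · -- `e` is on the negative half axis
    have he2 : ‖e‖ + e 2 = 0 := by
      have h1 : 0 ≤ ‖e‖ + e 2 := by
        have h2 := norm_sq_eq e
        by_contra hcon
        rw [not_le] at hcon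
        have h3 : ‖e‖ ^ 2 < e 2 ^ 2 := by nlinarith
        have h4 := sq_nonneg (e 0)
        have h5 := sq_nonneg (e 1)
        linarith
      exact le_antisymm (not_lt.1 hepos) h1
    obtain ⟨M, hM⟩ := hKc.isBounded.exists_norm_le
    set M' := max M 1 with hM'
    have hM1 : 1 ≤ M' := le_max_right _ _
    have hcont : Continuous fun y : E => (‖y‖ - y 2) - M' ^ 2 * (‖y‖ + y 2) := by
      have c2 : Continuous fun y : E => y 2 := (EuclideanSpace.proj (2 : Fin 3)).continuous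
      fun_prop
    have hopen : IsOpen {y : E | 0 < (‖y‖ - y 2) - M' ^ 2 * (‖y‖ + y 2)} := isOpen_lt continuous_const hcont
    obtain ⟨δ, hδ, hδ'⟩ := Metric.isOpen_iff.1 hopen e (by
      show 0 < (‖e‖ - e 2) - M' ^ 2 * (‖e‖ + e 2)
      rw [he2, mul_zero]
      linarith)
    obtain ⟨x, hx, hxe⟩ := hacc δ hδ
    have h1 : 0 < (‖x‖ - x 2) - M' ^ 2 * (‖x‖ + x 2) := hδ' hxe
    have hxp := hpos x (hD' x hx).2
    have h2 : M' ^ 2 < ‖pj x‖ ^ 2 := by
      rw [norm_pj hxp, lt_div_iff₀ hxp]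
      linarith
    have h3 : M' < ‖pj x‖ := (sq_lt_sq₀ (by linarith) (norm_nonneg _)).1 h2
    have h4 : M < ‖zh n x‖ := by
      rw [zh, norm_pow]
      have h5 : ‖pj x‖ ≤ ‖pj x‖ ^ n := le_self_pow₀ (by linarith) hn
      have h6 : M ≤ M' := le_max_left _ _
      linarith
    refine ⟨zh n x, ⟨x, hx, rfl⟩, fun R => ray_far (hzh0 x (hD' x hx).2) (fun s hs hsK => ?_) R⟩
    have h5 := hM _ hsK
    rw [norm_smul, Real.norm_eq_abs, abs_of_nonneg (by linarith)] at h5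
    have h6 : 0 ≤ ‖zh n x‖ := norm_nonneg _
    nlinarith

end Pool.Agent.Helper99.RS
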