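import Pool.Agent.Helper83.RS.Rev
import Pool.Agent.Helper94.RS.North

/-!
# RS: the surface is a surface of revolution (from lemma A and LC)
-/

set_option autoImplicit false

open scoped ContDiff Topology

namespace Pool.Agent.Helper99.RS

open Pool.Agent.Helper78.FB

variable {F : E → ℝ} {n : ℕ}

theorem north_of_index (h : FBMS F) (hconn : IsPreconnected (inn F)) (hA : ∃ y ∈ surf F, normA F y ≠ 0)
    (hi : IndexLeFour F) : North F := by
  intro hw
  refine north h (fun y hy => ?_) (fun y hy => ne_zero_of_index h hconn hA hi hy) hw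
  rcases exists_sign h hconn hA hi with hs | hs
  · exact (hs y hy).ne'
  · exact (hs y hy).ne

/-- If LC and lemma A hold, a surface of index at most four with a rotation symmetry of order `n ≥ 5` is a surface of
revolution. -/
theorem rev_main (h : FBMS F) (hconn : IsPreconnected (inn F)) (hA : ∃ y ∈ surf F, normA F y ≠ 0)
    (hi : IndexLeFour F) (hn : 5 ≤ n) (hF : ∀ y, F (rot (2 * Real.pi / n) y) = F y) (hlc : LCon F)
    (h5 : ∀ φ : E → ℝ, Null F φ → NoFive F φ) : ∀ y ∈ surf F, ww F 0 1 y = 0 :=
  rev_of h hconn hA hi hn hF hlc (h5 _ (null_ww h 0 1)) (h5 _ (null_neg (null_ww h 0 1)))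
    (north_of_index h hconn hA hi)

end Pool.Agent.Helper99.RS
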