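import Pool.Agent.Helper83.RS.End

/-!
# RS: the surface is a surface of revolution (from lemma A, LC and NORTH)
-/

set_option autoImplicit false

open scoped ContDiff Topology

namespace Pool.Agent.Helper99.RS

open Pool.Agent.Helper78.FB

variable {F : E → ℝ} {n : ℕ}

theorem rad_of_index (h : FBMS F) (hconn : IsPreconnected (inn F)) (hA : ∃ y ∈ surf F, normA F y ≠ 0)
    (hi : IndexLeFour F) : ∀ x ∈ surf F, ∀ y ∈ surf F, ‖y‖ • x = ‖x‖ • y → x = y := by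
  have key : ∀ x ∈ surf F, ∀ y ∈ surf F, ‖y‖ • x = ‖x‖ • y → ‖x‖ ≤ ‖y‖ → x = y := by
    intro x hx y hy hxy hle
    have hy0 : 0 < ‖y‖ := norm_pos_iff.2 (ne_zero_of_index h hconn hA hi hy)
    have h1 : x = (‖x‖ / ‖y‖) • y := by
      rw [div_eq_inv_mul, mul_smul, ← hxy, inv_smul_smul₀ hy0.ne']
    have h2 : ‖x‖ / ‖y‖ = 1 := by
      refine radial_of_index h hconn hA hi hy ⟨by positivity, (div_le_one hy0).2 hle⟩ ?_
      rw [← h1]
      exact hx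
    rw [h2, one_smul] at h1
    exact h1
  intro x hx y hy hxy
  rcases le_total ‖x‖ ‖y‖ with hle | hle
  · exact key x hx y hy hxy hle
  · exact (key y hy x hx hxy.symm hle).symm

/-- The statement of leaf NORTH for `ww F 0 1`. -/
def North (F : E → ℝ) : Prop :=
  (∃ y ∈ surf F, ww F 0 1 y ≠ 0) → ∃ e ∈ surf F, ww F 0 1 e = 0 ∧
    (∀ y ∈ surf F, ww F 0 1 y ≠ 0 → y 2 / ‖y‖ ≤ e 2 / ‖e‖) ∧
    (∀ δ : ℝ, 0 < δ → ∃ y ∈ surf F, y ∈ Metric.ball e δ ∧ 0 < ww F 0 1 y) ∧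
    (∀ δ : ℝ, 0 < δ → ∃ y ∈ surf F, y ∈ Metric.ball e δ ∧ ww F 0 1 y < 0)

theorem rev_of (h : FBMS F) (hconn : IsPreconnected (inn F)) (hA : ∃ y ∈ surf F, normA F y ≠ 0)
    (hi : IndexLeFour F) (hn : 5 ≤ n) (hF : ∀ y, F (rot (2 * Real.pi / n) y) = F y) (hlc : LCon F)
    (h5 : NoFive F (ww F 0 1)) (h5' : NoFive F fun y => -ww F 0 1 y) (hno : North F) :
    ∀ y ∈ surf F, ww F 0 1 y = 0 := by
  by_contra hc
  push Not at hc
  obtain ⟨e, he, he0, hmax, hp, hm⟩ := hno hc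
  refine no_nodal_end hn hlc (contDiff_ww h.smooth 0 1).continuous hF (fun y => ww_rot hF y) ?_
    (rad_of_index h hconn hA hi) (fun y hy => ne_zero_of_index h hconn hA hi hy) h5 h5' he he0 hmax hp hm
  intro y h0 h1
  rw [ww, h0, h1]
  ring

end Pool.Agent.Helper99.RS
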