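import Pool.Agent.Helper99.RS.Defs

/-!
# RS: rotations and the stereographic projection (leaf STEREO)

`pj y`: the stereographic projection of `y / |y|` from the south pole. `rotE t`: the rotation as a
linear isometry.
-/

set_option autoImplicit false

open scoped ContDiff Topology

namespace Pool.Agent.Helper99.RS

open Pool.Agent.Helper78.FB

/-! ### The rotation -/

@[simp] theorem rot_zero' (t : ℝ) (y : E) : rot t y 0 = Real.cos t * y 0 - Real.sin t * y 1 := rfl

@[simp] theorem rot_one' (t : ℝ) (y : E) : rot t y 1 = Real.sin t * y 0 + Real.cos t * y 1 := rfl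

@[simp] theorem rot_two' (t : ℝ) (y : E) : rot t y 2 = y 2 := rfl

theorem rot_add (s t : ℝ) (y : E) : rot (s + t) y = rot s (rot t y) := by
  ext i
  fin_cases i
  · show rot (s + t) y 0 = rot s (rot t y) 0
    simp only [rot_zero', rot_one', Real.cos_add, Real.sin_add]
    ring
  · show rot (s + t) y 1 = rot s (rot t y) 1
    simp only [rot_zero', rot_one', Real.cos_add, Real.sin_add]
    ring
  · rfl

theorem rot_id (y : E) : rot 0 y = y := by
  ext i
  fin_cases i
  · show rot 0 y 0 = y 0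
    simp
  · show rot 0 y 1 = y 1
    simp
  · rfl

theorem rot_neg_rot (t : ℝ) (y : E) : rot (-t) (rot t y) = y := by
  rw [← rot_add, neg_add_cancel, rot_id]

theorem rot_rot_neg (t : ℝ) (y : E) : rot t (rot (-t) y) = y := by
  rw [← rot_add, add_neg_cancel, rot_id]

theorem rot_two_pi (y : E) : rot (2 * Real.pi) y = y := by
  ext i
  fin_cases i
  · show rot (2 * Real.pi) y 0 = y 0
    simp
  · show rot (2 * Real.pi) y 1 = y 1
    simp
  · rfl

theorem norm_sq_eq (y : E) : ‖y‖ ^ 2 = y 0 ^ 2 + y 1 ^ 2 + y 2 ^ 2 := by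
  rw [EuclideanSpace.norm_sq_eq, Fin.sum_univ_three]
  simp only [Real.norm_eq_abs, sq_abs]

theorem norm_rot (t : ℝ) (y : E) : ‖rot t y‖ = ‖y‖ := by
  have h : ‖rot t y‖ ^ 2 = ‖y‖ ^ 2 := by
    rw [norm_sq_eq, norm_sq_eq, rot_zero', rot_one', rot_two']
    have := Real.sin_sq_add_cos_sq t
    linear_combination (y 0 ^ 2 + y 1 ^ 2) * this
  exact (sq_eq_sq₀ (norm_nonneg _) (norm_nonneg _)).1 h

/-- The rotation as a linear isometry. -/
noncomputable def rotE (t : ℝ) : E ≃ₗᵢ[ℝ] E where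
  toFun := rot t
  invFun := rot (-t)
  left_inv := rot_neg_rot t
  right_inv := rot_rot_neg t
  map_add' x y := by
    ext i
    fin_cases i
    · show rot t (x + y) 0 = rot t x 0 + rot t y 0
      simp only [rot_zero', PiLp.add_apply]
      ring
    · show rot t (x + y) 1 = rot t x 1 + rot t y 1
      simp only [rot_one', PiLp.add_apply]
      ring
    · rfl
  map_smul' c y := by
    ext i
    fin_cases i
    · show rot t (c • y) 0 = c * rot t y 0
      simp only [rot_zero', PiLp.smul_apply, smul_eq_mul]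
      ring
    · show rot t (c • y) 1 = c * rot t y 1
      simp only [rot_one', PiLp.smul_apply, smul_eq_mul]
      ring
    · rfl
  norm_map' := norm_rot t

@[simp] theorem rotE_apply (t : ℝ) (y : E) : rotE t y = rot t y := rfl

theorem isometry_rot (t : ℝ) : Isometry (rot t) := (rotE t).isometry

theorem dist_rot (t : ℝ) (x y : E) : dist (rot t x) (rot t y) = dist x y := (isometry_rot t).dist_eq x y

theorem continuous_rot (t : ℝ) : Continuous (rot t) := (isometry_rot t).continuous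

theorem injective_rot (t : ℝ) : Function.Injective (rot t) := (isometry_rot t).injective

theorem rot_add_vec (t : ℝ) (x y : E) : rot t (x + y) = rot t x + rot t y := (rotE t).map_add x y

theorem rot_smul (t c : ℝ) (y : E) : rot t (c • y) = c • rot t y := (rotE t).map_smul c y

theorem rot_ball (t : ℝ) {x y : E} {e : ℝ} : rot t x ∈ Metric.ball (rot t y) e ↔ x ∈ Metric.ball y e := by
  rw [Metric.mem_ball, Metric.mem_ball, dist_rot]

theorem rot_nsmul (t : ℝ) (n : ℕ) (y : E) : rot (n * t) y = (rot t)^[n] y := by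
  induction n with
  | zero => simp [rot_id]
  | succ n ih =>
    rw [Function.iterate_succ_apply', ← ih, ← rot_add]
    push_cast
    congr 1
    ring

/-! ### Invariant functions -/

variable {F : E → ℝ} {t : ℝ}

theorem inv_neg (hF : ∀ y, F (rot t y) = F y) (y : E) : F (rot (-t) y) = F y := by
  rw [← hF (rot (-t) y), rot_rot_neg]

theorem inv_nsmul (hF : ∀ y, F (rot t y) = F y) (n : ℕ) (y : E) : F (rot (n * t) y) = F y := by
  induction n with
  | zero => simp [rot_id]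
  | succ n ih =>
    have e : ((n + 1 : ℕ) : ℝ) * t = t + n * t := by push_cast; ring
    rw [e, rot_add, hF, ih]

theorem surf_rot (hF : ∀ y, F (rot t y) = F y) {y : E} : rot t y ∈ surf F ↔ y ∈ surf F := by
  simp only [surf, Set.mem_ofPred_eq, norm_rot, hF]

theorem inn_rot (hF : ∀ y, F (rot t y) = F y) {y : E} : rot t y ∈ inn F ↔ y ∈ inn F := by
  simp only [inn, Set.mem_ofPred_eq, norm_rot, hF]

theorem bdry_rot (hF : ∀ y, F (rot t y) = F y) {y : E} : rot t y ∈ bdry F ↔ y ∈ bdry F := by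
  simp only [bdry, Set.mem_ofPred_eq, norm_rot, hF]

theorem fderiv_rot (hF : ∀ y, F (rot t y) = F y) (y v : E) :
    fderiv ℝ F (rot t y) (rot t v) = fderiv ℝ F y v := by
  have h1 : F ∘ (rotE t).toContinuousLinearEquiv = F := funext hF
  have h2 := (rotE t).toContinuousLinearEquiv.comp_right_fderiv (f := F) (x := y)
  rw [h1] at h2
  rw [h2]
  rfl

theorem rot_single_zero (t : ℝ) : rot t (EuclideanSpace.single 0 1) =
    Real.cos t • EuclideanSpace.single 0 1 + Real.sin t • EuclideanSpace.single 1 (1 : ℝ) := by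
  ext i
  fin_cases i <;> simp [rot]

theorem rot_single_one (t : ℝ) : rot t (EuclideanSpace.single 1 1) =
    -Real.sin t • EuclideanSpace.single 0 1 + Real.cos t • EuclideanSpace.single 1 (1 : ℝ) := by
  ext i
  fin_cases i <;> simp [rot]

theorem rot_single_two (t : ℝ) : rot t (EuclideanSpace.single 2 1) = EuclideanSpace.single 2 1 := by
  ext i
  fin_cases i <;> simp [rot]

theorem pd_zero_rot (hF : ∀ y, F (rot t y) = F y) (y : E) :
    pd 0 F y = Real.cos t * pd 0 F (rot t y) + Real.sin t * pd 1 F (rot t y) := by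
  rw [pd, ← fderiv_rot hF, rot_single_zero, map_add, map_smul, map_smul]
  rfl

theorem pd_one_rot (hF : ∀ y, F (rot t y) = F y) (y : E) :
    pd 1 F y = -Real.sin t * pd 0 F (rot t y) + Real.cos t * pd 1 F (rot t y) := by
  rw [pd, ← fderiv_rot hF, rot_single_one, map_add, map_smul, map_smul]
  rfl

theorem pd_two_rot (hF : ∀ y, F (rot t y) = F y) (y : E) : pd 2 F (rot t y) = pd 2 F y := by
  rw [pd, pd, ← fderiv_rot hF y, rot_single_two]

theorem ww_rot (hF : ∀ y, F (rot t y) = F y) (y : E) : ww F 0 1 (rot t y) = ww F 0 1 y := by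
  rw [ww, ww, pd_zero_rot hF y, pd_one_rot hF y, rot_zero', rot_one']
  ring

/-- The rotation of a piece is a piece. -/
theorem Piece.rot {φ : E → ℝ} {C : Set E} (hF : ∀ y, F (rot t y) = F y)
    (hφ : ∀ y, φ (RS.rot t y) = φ y) (P : Piece F φ C) : Piece F φ ((RS.rot t) ⁻¹' C) where
  sub y hy := by
    obtain ⟨h1, h2⟩ := P.sub _ hy
    exact ⟨(surf_rot hF).1 h1, by rwa [hφ] at h2⟩
  opn y hy := by
    obtain ⟨ε, hε, h⟩ := P.opn _ hy
    exact ⟨ε, hε, fun x hx hxy => h _ ((surf_rot hF).2 hx) ((rot_ball t).2 hxy)⟩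
  cls y hy h0 hn := by
    obtain ⟨ε, hε, h⟩ := P.cls _ ((surf_rot hF).2 hy) (by rwa [hφ]) hn
    exact ⟨ε, hε, fun x hx hxy => h _ ((surf_rot hF).2 hx) ((rot_ball t).2 hxy)⟩

/-! ### The stereographic projection -/

noncomputable def pj (y : E) : ℂ := (y 0 + y 1 * Complex.I) / (‖y‖ + y 2)

/-- `y` does not lie on the closed negative half axis. -/
theorem pos_of_off {y : E} (h : y 0 ≠ 0 ∨ y 1 ≠ 0 ∨ 0 < y 2) : 0 < ‖y‖ + y 2 := by
  have h1 := norm_sq_eq y
  have h2 := norm_nonneg y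
  by_contra hc
  rw [not_lt] at hc
  have h3 : y 2 ≤ 0 := by linarith
  have h4 : ‖y‖ ^ 2 ≤ y 2 ^ 2 := by nlinarith
  have h5 : y 0 ^ 2 + y 1 ^ 2 ≤ 0 := by linarith
  rcases h with h | h | h
  · have := sq_pos_of_ne_zero h
    have := sq_nonneg (y 1)
    linarith
  · have := sq_pos_of_ne_zero h
    have := sq_nonneg (y 0)
    linarith
  · linarith

theorem off_iff {y : E} : 0 < ‖y‖ + y 2 ↔ y 0 ≠ 0 ∨ y 1 ≠ 0 ∨ 0 < y 2 := by
  refine ⟨fun h => ?_, pos_of_off⟩
  by_contra hc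
  push Not at hc
  obtain ⟨h0, h1, h2⟩ := hc
  have h3 := norm_sq_eq y
  rw [h0, h1] at h3
  have h4 : ‖y‖ = -y 2 := by
    refine (sq_eq_sq₀ (norm_nonneg _) (by linarith)).1 ?_
    rw [h3]
    ring
  linarith

theorem pj_rot (t : ℝ) (y : E) : pj (rot t y) = Complex.exp (Complex.I * t) * pj y := by
  rw [pj, pj, norm_rot, rot_zero', rot_one', rot_two', mul_comm Complex.I, Complex.exp_mul_I,
    ← mul_div_assoc]
  congr 1
  push_cast
  have := Complex.I_sq
  linear_combination (-(Complex.sin t * (y 1 : ℂ))) * this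

theorem norm_pj {y : E} (h : 0 < ‖y‖ + y 2) : ‖pj y‖ ^ 2 = (‖y‖ - y 2) / (‖y‖ + y 2) := by
  have h1 : ‖pj y‖ = ‖(y 0 + y 1 * Complex.I : ℂ)‖ / (‖y‖ + y 2) := by
    rw [pj, norm_div]
    congr 1
    rw [← Complex.ofReal_add, Complex.norm_real, Real.norm_eq_abs, abs_of_pos h]
  rw [h1, div_pow, Complex.sq_norm, Complex.normSq_add_mul_I, div_eq_div_iff (by positivity) h.ne']
  have := norm_sq_eq y
  linear_combination (-(‖y‖ + y 2)) * this

theorem pj_ne_zero {y : E} (h : y 0 ≠ 0 ∨ y 1 ≠ 0) : pj y ≠ 0 := by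
  have h1 : 0 < ‖y‖ + y 2 := pos_of_off (by tauto)
  rw [pj]
  refine div_ne_zero (fun h2 => ?_) ?_
  · have h3 := congrArg Complex.re h2
    have h4 := congrArg Complex.im h2
    simp at h3 h4
    rcases h with h | h
    · exact h h3
    · exact h h4
  · rw [← Complex.ofReal_add]
    exact_mod_cast h1.ne'

theorem pj_eq_zero {y : E} (h0 : y 0 = 0) (h1 : y 1 = 0) : pj y = 0 := by
  simp [pj, h0, h1]

theorem norm_pj_eq_height {y : E} (h : 0 < ‖y‖ + y 2) (h0 : y ≠ 0) :
    ‖pj y‖ ^ 2 = 2 / (1 + y 2 / ‖y‖) - 1 := by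
  have hn : 0 < ‖y‖ := norm_pos_iff.2 h0
  rw [norm_pj h]
  have e : 1 + y 2 / ‖y‖ = (‖y‖ + y 2) / ‖y‖ := by field_simp
  rw [e]
  field_simp
  ring

theorem ne_zero_of_off {y : E} (h : 0 < ‖y‖ + y 2) : y ≠ 0 := by
  rintro rfl
  simp at h

/-- The higher the direction, the smaller the projection. -/
theorem norm_pj_le {x y : E} (hx : 0 < ‖x‖ + x 2) (hy : 0 < ‖y‖ + y 2)
    (h : y 2 / ‖y‖ ≤ x 2 / ‖x‖) : ‖pj x‖ ≤ ‖pj y‖ := by
  have hx0 := norm_pos_iff.2 (ne_zero_of_off hx)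
  have hy0 := norm_pos_iff.2 (ne_zero_of_off hy)
  refine (sq_le_sq₀ (norm_nonneg _) (norm_nonneg _)).1 ?_
  rw [norm_pj hx, norm_pj hy, div_le_div_iff₀ hx hy]
  rw [div_le_div_iff₀ hy0 hx0] at h
  nlinarith

theorem norm_pj_lt {x y : E} (hx : 0 < ‖x‖ + x 2) (hy : 0 < ‖y‖ + y 2)
    (h : y 2 / ‖y‖ < x 2 / ‖x‖) : ‖pj x‖ < ‖pj y‖ := by
  have hx0 := norm_pos_iff.2 (ne_zero_of_off hx)
  have hy0 := norm_pos_iff.2 (ne_zero_of_off hy)
  refine (sq_lt_sq₀ (norm_nonneg _) (norm_nonneg _)).1 ?_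
  rw [norm_pj hx, norm_pj hy, div_lt_div_iff₀ hx hy]
  rw [div_lt_div_iff₀ hy0 hx0] at h
  nlinarith

/-- `pj` determines the direction. -/
theorem smul_eq_of_pj_eq {x y : E} (hx : 0 < ‖x‖ + x 2) (hy : 0 < ‖y‖ + y 2) (h : pj y = pj x) :
    ‖x‖ • y = ‖y‖ • x := by
  have hx0 := norm_pos_iff.2 (ne_zero_of_off hx)
  have hy0 := norm_pos_iff.2 (ne_zero_of_off hy)
  have h1 : (‖y‖ - y 2) / (‖y‖ + y 2) = (‖x‖ - x 2) / (‖x‖ + x 2) := by
    rw [← norm_pj hx, ← norm_pj hy, h]
  rw [div_eq_div_iff hy.ne' hx.ne'] at h1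
  have h2 : ‖x‖ * y 2 = ‖y‖ * x 2 := by linarith
  have hcx : ((‖x‖ : ℂ) + x 2) ≠ 0 := by
    rw [← Complex.ofReal_add]
    exact_mod_cast hx.ne'
  have hcy : ((‖y‖ : ℂ) + y 2) ≠ 0 := by
    rw [← Complex.ofReal_add]
    exact_mod_cast hy.ne'
  rw [pj, pj, div_eq_div_iff hcy hcx] at h
  have h3 := congrArg Complex.re h
  have h4 := congrArg Complex.im h
  simp at h3 h4
  have e : ‖x‖ * (‖y‖ + y 2) = ‖y‖ * (‖x‖ + x 2) := by linarith
  ext i
  fin_cases i
  · show ‖x‖ * y 0 = ‖y‖ * x 0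
    have h5 : (‖x‖ + x 2) * (‖x‖ * y 0 - ‖y‖ * x 0) = 0 := by
      linear_combination ‖x‖ * h3 + x 0 * e
    have h6 := (mul_eq_zero.1 h5).resolve_left hx.ne'
    linarith
  · show ‖x‖ * y 1 = ‖y‖ * x 1
    have h5 : (‖x‖ + x 2) * (‖x‖ * y 1 - ‖y‖ * x 1) = 0 := by
      linear_combination ‖x‖ * h4 + x 1 * e
    have h6 := (mul_eq_zero.1 h5).resolve_left hx.ne'
    linarith
  · exact h2

theorem continuousAt_pj {y : E} (h : 0 < ‖y‖ + y 2) : ContinuousAt pj y := by
  have c0 : Continuous fun y : E => (y 0 : ℂ) :=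
    Complex.continuous_ofReal.comp (EuclideanSpace.proj (0 : Fin 3)).continuous
  have c1 : Continuous fun y : E => (y 1 : ℂ) :=
    Complex.continuous_ofReal.comp (EuclideanSpace.proj (1 : Fin 3)).continuous
  have c2 : Continuous fun y : E => (y 2 : ℂ) :=
    Complex.continuous_ofReal.comp (EuclideanSpace.proj (2 : Fin 3)).continuous
  have c3 : Continuous fun y : E => (‖y‖ : ℂ) := Complex.continuous_ofReal.comp continuous_norm
  refine ContinuousAt.div (c0.add (c1.mul continuous_const)).continuousAt (c3.add c2).continuousAt ?_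
  rw [← Complex.ofReal_add]
  exact_mod_cast h.ne'

theorem continuousOn_pj {s : Set E} (h : ∀ y ∈ s, 0 < ‖y‖ + y 2) : ContinuousOn pj s :=
  fun y hy => (continuousAt_pj (h y hy)).continuousWithinAt

theorem pj_smul {c : ℝ} (hc : 0 < c) (y : E) : pj (c • y) = pj y := by
  rw [pj, pj, norm_smul, Real.norm_eq_abs, abs_of_pos hc]
  simp only [PiLp.smul_apply, smul_eq_mul]
  push_cast
  have hc' : (c : ℂ) ≠ 0 := by exact_mod_cast hc.ne'
  rw [show ((c : ℂ) * y 0 + c * y 1 * Complex.I) = c * (y 0 + y 1 * Complex.I) by ring,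
    show ((c : ℂ) * ‖y‖ + c * y 2) = c * (‖y‖ + y 2) by ring, mul_div_mul_left _ _ hc']

/-! ### The power `pj ^ n` -/

theorem rot_of_exp_eq_one {t : ℝ} (ht : Complex.exp (Complex.I * t) = 1) (y : E) : rot t y = y := by
  rw [mul_comm, Complex.exp_mul_I] at ht
  have h1 := congrArg Complex.re ht
  have h2 := congrArg Complex.im ht
  simp at h1 h2
  rw [Complex.cos_ofReal_re] at h1
  rw [Complex.sin_ofReal_re] at h2
  ext i
  fin_cases i
  · show rot t y 0 = y 0
    rw [rot_zero', h1, h2]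
    ring
  · show rot t y 1 = y 1
    rw [rot_one', h1, h2]
    ring
  · rfl

/-- `pj ^ n` is invariant under the rotation by `2 π / n`. -/
theorem pj_pow_rot {n : ℕ} (hn : n ≠ 0) (y : E) : pj (rot (2 * Real.pi / n) y) ^ n = pj y ^ n := by
  have hn' : (n : ℂ) ≠ 0 := by exact_mod_cast hn
  rw [pj_rot, mul_pow, ← Complex.exp_nat_mul]
  have e : (n : ℂ) * (Complex.I * ((2 * Real.pi / n : ℝ) : ℂ)) = 2 * Real.pi * Complex.I := by
    push_cast
    field_simp
  rw [e, Complex.exp_two_pi_mul_I, one_mul]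

/-- `pj ^ n` separates the directions up to the rotations by multiples of `2 π / n`. -/
theorem exists_rot_of_pj_pow_eq {n : ℕ} (hn : n ≠ 0) {x y : E} (hx : 0 < ‖x‖ + x 2)
    (hy : 0 < ‖y‖ + y 2) (h : pj x ^ n = pj y ^ n) :
    ∃ j : ℕ, j < n ∧ ‖y‖ • x = ‖x‖ • rot (2 * Real.pi * j / n) y := by
  have hn' : (n : ℂ) ≠ 0 := by exact_mod_cast hn
  have key : ∃ j : ℕ, j < n ∧ pj x = pj (rot (2 * Real.pi * j / n) y) := by
    by_cases h0 : pj y = 0
    · rw [h0, zero_pow hn] at h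
      have h1 : pj x = 0 := pow_eq_zero_iff hn |>.1 h
      exact ⟨0, Nat.pos_of_ne_zero hn, by rw [pj_rot, h0, h1, mul_zero]⟩
    · have h1 : (pj x / pj y) ^ n = 1 := by
        rw [div_pow, h, div_self (pow_ne_zero n h0)]
      have : NeZero n := ⟨hn⟩
      obtain ⟨j, hj, hj'⟩ := (Complex.isPrimitiveRoot_exp n hn).eq_pow_of_pow_eq_one h1
      refine ⟨j, hj, ?_⟩
      rw [pj_rot]
      have e : Complex.exp (Complex.I * ((2 * Real.pi * j / n : ℝ) : ℂ)) = pj x / pj y := by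
        rw [← hj', ← Complex.exp_nat_mul]
        congr 1
        push_cast
        field_simp
      rw [e, div_mul_cancel₀ _ h0]
  obtain ⟨j, hj, h1⟩ := key
  refine ⟨j, hj, ?_⟩
  have hy' : 0 < ‖rot (2 * Real.pi * j / n) y‖ + rot (2 * Real.pi * j / n) y 2 := by
    rw [norm_rot, rot_two']
    exact hy
  have := smul_eq_of_pj_eq hy' hx h1
  rwa [norm_rot] at this

end Pool.Agent.Helper99.RS
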