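import Pool.Agent.Helper83.RS.Far
import Pool.Agent.Helper83.RS.Rev
import Pool.Agent.Helper99.RS.UDefs

/-!
# RS: rotations of order `n ≥ 3` (leaf T3)

`rev_three`: if there are no six disjoint pieces of both signs together, a rotation symmetry of order `n ≥ 3` implies
`ww F 0 1 = 0`.
-/

set_option autoImplicit false

open scoped ContDiff Topology

namespace Pool.Agent.Helper99.RS

open Pool.Agent.Helper78.FB

variable {F φ : E → ℝ} {n : ℕ}

/-- The statement of the south end. -/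
def South (F : E → ℝ) : Prop :=
  (∃ y ∈ surf F, ww F 0 1 y ≠ 0) → ∃ e ∈ surf F, ww F 0 1 e = 0 ∧
    (∀ y ∈ surf F, ww F 0 1 y ≠ 0 → e 2 / ‖e‖ ≤ y 2 / ‖y‖) ∧
    (∀ δ : ℝ, 0 < δ → ∃ y ∈ surf F, y ∈ Metric.ball e δ ∧ 0 < ww F 0 1 y) ∧
    (∀ δ : ℝ, 0 < δ → ∃ y ∈ surf F, y ∈ Metric.ball e δ ∧ ww F 0 1 y < 0)

/-- The function with a sign. -/
def sf (σ : ℝ) (φ : E → ℝ) (y : E) : ℝ := σ * φ y

theorem exists_comp_acc' (hfin : (comp F φ '' posS F φ).Finite) {e : E}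
    (he : ∀ δ : ℝ, 0 < δ → ∃ y ∈ posS F φ, y ∈ Metric.ball e δ) :
    ∃ y ∈ posS F φ, ∀ δ : ℝ, 0 < δ → ∃ x ∈ comp F φ y, x ∈ Metric.ball e δ := by
  by_contra hc
  push Not at hc
  choose! δ hδ hδ' using hc
  have h1 : ∀ C ∈ comp F φ '' posS F φ, ∃ d : ℝ, 0 < d ∧ ∀ x ∈ C, x ∉ Metric.ball e d := by
    rintro C ⟨y, hy, rfl⟩
    exact ⟨δ y, hδ y hy, hδ' y hy⟩
  choose! d hd hd' using h1
  obtain ⟨D, hD, hDle⟩ : ∃ D : ℝ, 0 < D ∧ ∀ C ∈ comp F φ '' posS F φ, D ≤ d C := by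
    rcases (comp F φ '' posS F φ).eq_empty_or_nonempty with h | h
    · exact ⟨1, one_pos, by simp [h]⟩
    · obtain ⟨C, hC, hmin⟩ := Set.exists_min_image _ d hfin h
      exact ⟨d C, hd C hC, hmin⟩
  obtain ⟨y, hy, hye⟩ := he D hD
  exact hd' _ ⟨y, hy, rfl⟩ y (mem_comp_self hy) (Metric.ball_subset_ball (hDle _ ⟨y, hy, rfl⟩) hye)

theorem finite_comps' (hlc : LCon F) (hφc : Continuous φ) {σ : ℝ} (hσ : σ = 1 ∨ σ = -1) (h6 : NoSix F φ) :
    (comp F (sf σ φ) '' posS F (sf σ φ)).Finite := by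
  by_contra hinf
  obtain ⟨T, hT, hcard⟩ := Set.Infinite.exists_subset_card_eq hinf 6
  let e : Fin 6 ≃ T := (T.equivFinOfCardEq hcard).symm
  have hmem : ∀ i, ((e i : T) : Set E) ∈ comp F (sf σ φ) '' posS F (sf σ φ) := fun i => hT (e i).2
  choose y hy hy' using hmem
  refine h6 (fun _ => σ) (fun i => comp F (sf σ φ) (y i)) (fun _ => hσ)
    (fun i => piece_comp hlc (continuous_const.mul hφc) _) (fun i => ⟨_, mem_comp_self (hy i)⟩)
    fun i j hij => comp_disjoint fun h => hij ?_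
  rw [hy', hy'] at h
  exact e.injective (Subtype.ext h)

/-- The components of `{φ > 0}` at the rotated points. -/
def rc (F φ : E → ℝ) (n : ℕ) (y : E) (k : ℕ) : Set E := comp F φ (rot (((k : ℕ) : ℤ) * (2 * Real.pi / n)) y)

theorem rc_mem (hF : ∀ y, F (rot (2 * Real.pi / n) y) = F y) (hφ : ∀ y, φ (rot (2 * Real.pi / n) y) = φ y)
    {y : E} (hy : y ∈ posS F φ) (k : ℕ) : rot (((k : ℕ) : ℤ) * (2 * Real.pi / n)) y ∈ posS F φ :=
  (posS_rot (inv_mul hF k) (inv_mul hφ k)).2 hy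

theorem zh_rot (hn : n ≠ 0) (k : ℤ) (y : E) : zh n (rot (k * (2 * Real.pi / n)) y) = zh n y := by
  have key : ∀ (m : ℕ) (y : E), zh n (rot (m * (2 * Real.pi / n)) y) = zh n y := by
    intro m
    induction m with
    | zero => intro y; simp [rot_id]
    | succ m ih =>
      intro y
      have e : ((m + 1 : ℕ) : ℝ) * (2 * Real.pi / n) = 2 * Real.pi / n + m * (2 * Real.pi / n) := by
        push_cast
        ring
      rw [e, rot_add, zh, pj_pow_rot hn]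
      exact ih y
  obtain ⟨m, rfl | rfl⟩ := k.eq_nat_or_neg
  · exact_mod_cast key m y
  · have h1 := key m (rot (((-(m : ℤ) : ℤ) : ℝ) * (2 * Real.pi / n)) y)
    rw [← rot_add] at h1
    have e : (m : ℝ) * (2 * Real.pi / n) + ((-(m : ℤ) : ℤ) : ℝ) * (2 * Real.pi / n) = 0 := by
      push_cast
      ring
    rw [e, rot_id] at h1
    exact h1.symm

/-- The images of the components at the rotated points under `zh` are the same. -/
theorem zh_rc (hn : n ≠ 0) (hF : ∀ y, F (rot (2 * Real.pi / n) y) = F y)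
    (hφ : ∀ y, φ (rot (2 * Real.pi / n) y) = φ y) (y : E) (k : ℕ) :
    zh n '' rc F φ n y k = zh n '' comp F φ y := by
  have e : ((-(k : ℤ) : ℤ) : ℝ) * (2 * Real.pi / n) + ((k : ℤ) : ℝ) * (2 * Real.pi / n) = 0 := by
    push_cast
    ring
  apply Set.Subset.antisymm
  · rintro _ ⟨x, hx, rfl⟩
    have h1 := joinedIn_rot (inv_mul hF (-(k : ℤ))) (inv_mul hφ (-(k : ℤ))) hx
    rw [← rot_add, e, rot_id] at h1
    exact ⟨_, h1, zh_rot hn _ x⟩
  · rintro _ ⟨x, hx, rfl⟩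
    have h1 := joinedIn_rot (inv_mul hF (k : ℤ)) (inv_mul hφ (k : ℤ)) hx
    exact ⟨_, h1, zh_rot hn _ x⟩

/-- A component is mapped to itself by a rotation, or three of its copies are disjoint. -/
theorem stab_or_free (hn : 3 ≤ n) (hF : ∀ y, F (rot (2 * Real.pi / n) y) = F y)
    (hφ : ∀ y, φ (rot (2 * Real.pi / n) y) = φ y) {y : E} (hy : y ∈ posS F φ) :
    (∃ j : ℕ, 0 < j ∧ j < n ∧ ∀ x ∈ comp F φ y, rot (2 * Real.pi * j / n) x ∈ comp F φ y) ∨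
      ∀ a b : ℕ, a < 3 → b < 3 → a ≠ b → Disjoint (rc F φ n y a) (rc F φ n y b) := by
  by_cases hc : ∀ a b : ℕ, a < 3 → b < 3 → a ≠ b → Disjoint (rc F φ n y a) (rc F φ n y b)
  · exact Or.inr hc
  left
  push Not at hc
  obtain ⟨a, b, hab, hb3, hne⟩ : ∃ a b : ℕ, a < b ∧ b < 3 ∧ ¬ Disjoint (rc F φ n y a) (rc F φ n y b) := by
    obtain ⟨a, b, ha, hb, hne, hd⟩ := hc
    rcases lt_or_gt_of_ne hne with h | h
    · exact ⟨a, b, h, hb, hd⟩
    · exact ⟨b, a, h, ha, fun h' => hd h'.symm⟩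
  have heq : rc F φ n y a = rc F φ n y b := by
    by_contra hc
    exact hne (comp_disjoint hc)
  have h1 : JoinedIn (posS F φ) (rot (((a : ℕ) : ℤ) * (2 * Real.pi / n)) y)
      (rot (((b : ℕ) : ℤ) * (2 * Real.pi / n)) y) := by
    show rot (((b : ℕ) : ℤ) * (2 * Real.pi / n)) y ∈ rc F φ n y a
    rw [heq]
    exact mem_comp_self (rc_mem hF hφ hy b)
  have h2 := joinedIn_rot (inv_mul hF (-((a : ℕ) : ℤ))) (inv_mul hφ (-((a : ℕ) : ℤ))) h1
  rw [← rot_add, ← rot_add] at h2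
  have e1 : ((-((a : ℕ) : ℤ) : ℤ) : ℝ) * (2 * Real.pi / n) + (((a : ℕ) : ℤ) : ℝ) * (2 * Real.pi / n) = 0 := by
    push_cast
    ring
  have e2 : ((-((a : ℕ) : ℤ) : ℤ) : ℝ) * (2 * Real.pi / n) + (((b : ℕ) : ℤ) : ℝ) * (2 * Real.pi / n) =
      2 * Real.pi * ((b - a : ℕ) : ℝ) / n := by
    rw [Nat.cast_sub hab.le]
    push_cast
    ring
  rw [e1, e2, rot_id] at h2
  refine ⟨b - a, by omega, by omega, fun x hx => ?_⟩
  have e3 : 2 * Real.pi * ((b - a : ℕ) : ℝ) / n = (((b - a : ℕ) : ℤ) : ℝ) * (2 * Real.pi / n) := by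
    push_cast
    ring
  have h3 : JoinedIn (posS F φ) (rot (2 * Real.pi * ((b - a : ℕ) : ℝ) / n) y)
      (rot (2 * Real.pi * ((b - a : ℕ) : ℝ) / n) x) := by
    rw [e3]
    exact joinedIn_rot (inv_mul hF _) (inv_mul hφ _) hx
  exact JoinedIn.trans h2 h3

/-- Two different free orbits give six pieces. -/
theorem six_of_free (hlc : LCon F) (hφc : Continuous φ) (h6 : NoSix F φ)
    (hF : ∀ y, F (rot (2 * Real.pi / n) y) = F y) (hφ : ∀ y, φ (rot (2 * Real.pi / n) y) = φ y) {σ τ : ℝ}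
    (hσ : σ = 1 ∨ σ = -1) (hτ : τ = 1 ∨ τ = -1) {y z : E} (hy : y ∈ posS F (sf σ φ)) (hz : z ∈ posS F (sf τ φ))
    (fy : ∀ a b : ℕ, a < 3 → b < 3 → a ≠ b → Disjoint (rc F (sf σ φ) n y a) (rc F (sf σ φ) n y b))
    (fz : ∀ a b : ℕ, a < 3 → b < 3 → a ≠ b → Disjoint (rc F (sf τ φ) n z a) (rc F (sf τ φ) n z b))
    (hd : ∀ a b : ℕ, a < 3 → b < 3 → Disjoint (rc F (sf σ φ) n y a) (rc F (sf τ φ) n z b)) : False := by
  have hφσ : ∀ σ : ℝ, ∀ y, sf σ φ (rot (2 * Real.pi / n) y) = sf σ φ y := fun σ y => by rw [sf, sf, hφ]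
  refine h6 (fun i => if i.val < 3 then σ else τ)
    (fun i => if i.val < 3 then rc F (sf σ φ) n y i.val else rc F (sf τ φ) n z (i.val - 3)) ?_ ?_ ?_ ?_
  · intro i
    show (if i.val < 3 then σ else τ) = 1 ∨ (if i.val < 3 then σ else τ) = -1
    by_cases h : i.val < 3
    · rw [if_pos h]
      exact hσ
    · rw [if_neg h]
      exact hτ
  · intro i
    show Piece F (fun y => (if i.val < 3 then σ else τ) * φ y) _
    by_cases h : i.val < 3
    · simp only [if_pos h]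
      exact piece_comp hlc (continuous_const.mul hφc) _
    · simp only [if_neg h]
      exact piece_comp hlc (continuous_const.mul hφc) _
  · intro i
    by_cases h : i.val < 3
    · simp only [if_pos h]
      exact ⟨_, mem_comp_self (rc_mem hF (hφσ σ) hy _)⟩
    · simp only [if_neg h]
      exact ⟨_, mem_comp_self (rc_mem hF (hφσ τ) hz _)⟩
  · intro i j hij
    have hi := i.2
    have hj := j.2
    have hij' : i.val ≠ j.val := fun h => hij (Fin.ext h)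
    by_cases h : i.val < 3 <;> by_cases h' : j.val < 3
    · simp only [if_pos h, if_pos h']
      exact fy _ _ h h' hij'
    · simp only [if_pos h, if_neg h']
      exact hd _ _ h (by omega)
    · simp only [if_neg h, if_pos h']
      exact (hd _ _ h' (by omega)).symm
    · simp only [if_neg h, if_neg h']
      exact fz _ _ (by omega) (by omega) (by omega)

/-- Pieces of opposite signs are disjoint. -/
theorem rc_disjoint {σ τ : ℝ} (hστ : τ = -σ) (y z : E) (a b : ℕ) :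
    Disjoint (rc F (sf σ φ) n y a) (rc F (sf τ φ) n z b) := by
  rw [Set.disjoint_left]
  intro x hx hx'
  have h1 := (comp_sub hx).2
  have h2 := (comp_sub hx').2
  rw [sf] at h1 h2
  rw [hστ] at h2
  linarith

theorem no_ends (hn : 3 ≤ n) (hlc : LCon F) (hφc : Continuous φ)
    (hF : ∀ y, F (rot (2 * Real.pi / n) y) = F y) (hφ : ∀ y, φ (rot (2 * Real.pi / n) y) = φ y)
    (haxis : ∀ y : E, y 0 = 0 → y 1 = 0 → φ y = 0)
    (hrad : ∀ x ∈ surf F, ∀ y ∈ surf F, ‖y‖ • x = ‖x‖ • y → x = y) (h0 : ∀ y ∈ surf F, y ≠ 0)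
    (h6 : NoSix F φ) {e e' : E} (he : e ∈ surf F) (he0 : φ e = 0)
    (hmax : ∀ y ∈ surf F, φ y ≠ 0 → y 2 / ‖y‖ ≤ e 2 / ‖e‖)
    (hp : ∀ δ : ℝ, 0 < δ → ∃ y ∈ surf F, y ∈ Metric.ball e δ ∧ 0 < φ y)
    (hm : ∀ δ : ℝ, 0 < δ → ∃ y ∈ surf F, y ∈ Metric.ball e δ ∧ φ y < 0)
    (he' : e' ∈ surf F) (he0' : φ e' = 0) (hmin : ∀ y ∈ surf F, φ y ≠ 0 → e' 2 / ‖e'‖ ≤ y 2 / ‖y‖)
    (hp' : ∀ δ : ℝ, 0 < δ → ∃ y ∈ surf F, y ∈ Metric.ball e' δ ∧ 0 < φ y)
    (hm' : ∀ δ : ℝ, 0 < δ → ∃ y ∈ surf F, y ∈ Metric.ball e' δ ∧ φ y < 0) : False := by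
  have hn0 : n ≠ 0 := by omega
  have hoff : ∀ x : E, φ x ≠ 0 → x 0 ≠ 0 ∨ x 1 ≠ 0 := by
    intro x hx
    by_contra hc
    push Not at hc
    exact hx (haxis x hc.1 hc.2)
  have hpos : ∀ x : E, φ x ≠ 0 → 0 < ‖x‖ + x 2 := fun x hx => pos_of_off (by have := hoff x hx; tauto)
  have hφσ : ∀ σ : ℝ, ∀ y, sf σ φ (rot (2 * Real.pi / n) y) = sf σ φ y := fun σ y => by rw [sf, sf, hφ]
  have hcσ : ∀ σ : ℝ, Continuous (sf σ φ) := fun σ => continuous_const.mul hφc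
  have hD : ∀ (σ : ℝ) (y : E), ∀ x ∈ comp F (sf σ φ) y, x ∈ surf F ∧ φ x ≠ 0 := by
    intro σ y x hx
    refine ⟨(comp_sub hx).1, fun h => ?_⟩
    have h1 := (comp_sub hx).2
    rw [sf, h, mul_zero] at h1
    exact lt_irrefl _ h1
  have hcont : ∀ D : Set E, (∀ x ∈ D, x ∈ surf F ∧ φ x ≠ 0) → ContinuousOn (zh n) D := fun D hD =>
    (continuousOn_pj fun x hx => hpos x (hD x hx).2).pow n
  have hzd : ∀ σ y z, Disjoint (zh n '' comp F (sf σ φ) y) (zh n '' comp F (sf (-σ) φ) z) := by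
    intro σ y z
    rw [Set.disjoint_left]
    rintro a ⟨x, hx, rfl⟩ ⟨x', hx', h1⟩
    have h2 := rot_eq_of_zh_eq hn0 hF hφ hrad (hD _ _ x' hx').1 (hD _ _ x hx).1 (hpos x' (hD _ _ x' hx').2)
      (hpos x (hD _ _ x hx).2) h1
    have h3 := (comp_sub hx).2
    have h4 := (comp_sub hx').2
    rw [sf] at h3 h4
    rw [h2] at h4
    linarith
  have hpc : ∀ (σ : ℝ) (y : E), y ∈ posS F (sf σ φ) → IsPathConnected (zh n '' comp F (sf σ φ) y) :=
    fun σ y hy => (isPathConnected_comp hy).image' (hcont _ (hD σ y))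
  have hwnd : ∀ (σ : ℝ) (y : E), y ∈ posS F (sf σ φ) →
      (∃ j : ℕ, 0 < j ∧ j < n ∧ ∀ x ∈ comp F (sf σ φ) y, rot (2 * Real.pi * j / n) x ∈ comp F (sf σ φ) y) →
      Wnd (zh n '' comp F (sf σ φ) y) := by
    rintro σ y hy ⟨j, hj, hjn, hs⟩
    exact wnd_of_stab hj hjn (isPathConnected_comp hy) (fun x hx => hoff x (hD σ y x hx).2) hs
  have hzero : ∀ (σ : ℝ) (y : E), (0 : ℂ) ∉ zh n '' comp F (sf σ φ) y := by
    rintro σ y ⟨x, hx, h1⟩
    exact pow_ne_zero n (pj_ne_zero (hoff x (hD σ y x hx).2)) h1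
  -- components which reach an end
  have hacc : ∀ {e : E}, (∀ δ : ℝ, 0 < δ → ∃ y ∈ surf F, y ∈ Metric.ball e δ ∧ 0 < φ y) →
      (∀ δ : ℝ, 0 < δ → ∃ y ∈ surf F, y ∈ Metric.ball e δ ∧ φ y < 0) → ∀ σ : ℝ, σ = 1 ∨ σ = -1 →
      ∃ y ∈ posS F (sf σ φ), ∀ δ : ℝ, 0 < δ → ∃ x ∈ comp F (sf σ φ) y, x ∈ Metric.ball e δ := by
    intro e hp hm σ hσ
    refine exists_comp_acc' (finite_comps' hlc hφc hσ h6) fun δ hδ => ?_
    rcases hσ with rfl | rfl
    · obtain ⟨y, h1, h2, h3⟩ := hp δ hδ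
      exact ⟨y, ⟨h1, by rw [sf, one_mul]; exact h3⟩, h2⟩
    · obtain ⟨y, h1, h2, h3⟩ := hm δ hδ
      exact ⟨y, ⟨h1, by rw [sf]; linarith⟩, h2⟩
  -- at each end one of the signs is free
  have north : ∃ σ : ℝ, (σ = 1 ∨ σ = -1) ∧ ∃ y ∈ posS F (sf σ φ),
      (∀ δ : ℝ, 0 < δ → ∃ x ∈ comp F (sf σ φ) y, x ∈ Metric.ball e δ) ∧
      ∀ a b : ℕ, a < 3 → b < 3 → a ≠ b → Disjoint (rc F (sf σ φ) n y a) (rc F (sf σ φ) n y b) := by
    obtain ⟨y, hy, hya⟩ := hacc hp hm 1 (Or.inl rfl)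
    obtain ⟨z, hz, hza⟩ := hacc hp hm (-1) (Or.inr rfl)
    rcases stab_or_free hn hF (hφσ 1) hy with h1 | h1
    · rcases stab_or_free hn hF (hφσ (-1)) hz with h2 | h2
      · exfalso
        exact nested (hpc _ _ hy) (hpc _ _ hz) (hzd 1 y z) (hzero _ _) (hzero _ _) (hwnd _ _ hy h1) (hwnd _ _ hz h2)
          (fun K hK hKc => acc_of_end hn0 hF hφ haxis hrad h0 he he0 hmax (hD 1 y) (hD (-1) z) hza hK hKc)
          (fun K hK hKc => acc_of_end hn0 hF hφ haxis hrad h0 he he0 hmax (hD (-1) z) (hD 1 y) hya hK hKc)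
      · exact ⟨-1, Or.inr rfl, z, hz, hza, h2⟩
    · exact ⟨1, Or.inl rfl, y, hy, hya, h1⟩
  have south : ∃ σ : ℝ, (σ = 1 ∨ σ = -1) ∧ ∃ y ∈ posS F (sf σ φ),
      (∀ δ : ℝ, 0 < δ → ∃ x ∈ comp F (sf σ φ) y, x ∈ Metric.ball e' δ) ∧
      ∀ a b : ℕ, a < 3 → b < 3 → a ≠ b → Disjoint (rc F (sf σ φ) n y a) (rc F (sf σ φ) n y b) := by
    obtain ⟨y, hy, hya⟩ := hacc hp' hm' 1 (Or.inl rfl)
    obtain ⟨z, hz, hza⟩ := hacc hp' hm' (-1) (Or.inr rfl)
    rcases stab_or_free hn hF (hφσ 1) hy with h1 | h1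
    · rcases stab_or_free hn hF (hφσ (-1)) hz with h2 | h2
      · exfalso
        exact nested_far (hpc _ _ hy) (hpc _ _ hz) (hzd 1 y z) (hwnd _ _ hy h1) (hwnd _ _ hz h2)
          (fun K hK hKc => acc_far hn0 hF hφ haxis hrad h0 he' he0' hmin (hD 1 y) (hD (-1) z) hza hK hKc)
          (fun K hK hKc => acc_far hn0 hF hφ haxis hrad h0 he' he0' hmin (hD (-1) z) (hD 1 y) hya hK hKc)
      · exact ⟨-1, Or.inr rfl, z, hz, hza, h2⟩
    · exact ⟨1, Or.inl rfl, y, hy, hya, h1⟩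
  obtain ⟨σ, hσ, y, hy, hya, fy⟩ := north
  obtain ⟨τ, hτ, y', hy', hya', fy'⟩ := south
  have hσ' : -σ = 1 ∨ -σ = -1 := by
    rcases hσ with rfl | rfl
    · exact Or.inr rfl
    · exact Or.inl (by norm_num)
  by_cases hστ : τ = -σ
  · exact six_of_free hlc hφc h6 hF hφ hσ hτ hy hy' fy fy' fun a b _ _ => rc_disjoint hστ y y' a b
  have hτσ : τ = σ := by
    rcases hσ with rfl | rfl <;> rcases hτ with rfl | rfl
    · rfl
    · exact absurd rfl hστ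
    · exact absurd (by norm_num) hστ
    · rfl
  subst hτσ
  -- the two free orbits are the same
  by_cases hd : ∀ a b : ℕ, a < 3 → b < 3 → Disjoint (rc F (sf τ φ) n y a) (rc F (sf τ φ) n y' b)
  · exact six_of_free hlc hφc h6 hF hφ hσ hτ hy hy' fy fy' hd
  push Not at hd
  obtain ⟨a, b, -, -, hab⟩ := hd
  have heq : rc F (sf τ φ) n y a = rc F (sf τ φ) n y' b := by
    by_contra hc
    exact hab (comp_disjoint hc)
  have hA : zh n '' comp F (sf τ φ) y = zh n '' comp F (sf τ φ) y' := by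
    rw [← zh_rc hn0 hF (hφσ τ) y a, ← zh_rc hn0 hF (hφσ τ) y' b, heq]
  -- the other sign at the north end
  obtain ⟨z, hz, hza⟩ := hacc hp hm (-τ) hσ'
  rcases stab_or_free hn hF (hφσ (-τ)) hz with h1 | h1
  · refine crossing' (hwnd _ _ hz h1) (hpc _ _ hy) (hzd τ y z).symm
      (fun K hK hKc => acc_of_end hn0 hF hφ haxis hrad h0 he he0 hmax (hD (-τ) z) (hD τ y) hya hK hKc)
      (fun K hK hKc => ?_)
    rw [hA]
    exact acc_far hn0 hF hφ haxis hrad h0 he' he0' hmin (hD (-τ) z) (hD τ y') hya' hK hKc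
  · exact six_of_free hlc hφc h6 hF hφ hσ hσ' hy hz fy h1 fun a b _ _ => rc_disjoint rfl y z a b

/-- A rotation symmetry of order at least three. -/
theorem rev_three (h : FBMS F) (hconn : IsPreconnected (inn F)) (hA : ∃ y ∈ surf F, normA F y ≠ 0)
    (hi : IndexLeFour F) (hn : 3 ≤ n) (hF : ∀ y, F (rot (2 * Real.pi / n) y) = F y) (hlc : LCon F)
    (hsix : NoSix F (ww F 0 1)) (hno : North F) (hso : South F) : ∀ y ∈ surf F, ww F 0 1 y = 0 := by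
  by_contra hc
  push Not at hc
  obtain ⟨e, he, he0, hmax, hp, hm⟩ := hno hc
  obtain ⟨e', he', he0', hmin, hp', hm'⟩ := hso hc
  refine no_ends hn hlc (contDiff_ww h.smooth 0 1).continuous hF (fun y => ww_rot hF y) ?_
    (rad_of_index h hconn hA hi) (fun y hy => ne_zero_of_index h hconn hA hi hy) hsix he he0 hmax hp hm he' he0'
    hmin hp' hm'
  intro y h0 h1
  rw [ww, h0, h1]
  ring

end Pool.Agent.Helper99.RS
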